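import Pool.Agent.K1H64.ST.Defs

/-! Averaging over permutations. -/

set_option autoImplicit false

noncomputable section

namespace Pool.Agent.K1H64.ST

open Finset

/-- Preimage under a permutation. -/
def pb {n : ℕ} (π : Equiv.Perm (Fin n)) (E : Finset (Fin n)) : Finset (Fin n) :=
  univ.filter (fun i => π i ∈ E)

theorem mem_pb {n : ℕ} (π : Equiv.Perm (Fin n)) (E : Finset (Fin n)) (i : Fin n) :
    i ∈ pb π E ↔ π i ∈ E := by simp [pb]

theorem card_pb {n : ℕ} (π : Equiv.Perm (Fin n)) (E : Finset (Fin n)) : (pb π E).card = E.card := by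
  have : pb π E = E.map π.symm.toEmbedding := by
    ext i
    rw [mem_pb, mem_map_equiv, Equiv.symm_symm]
  rw [this, card_map]

theorem pb_mul {n : ℕ} (σ π : Equiv.Perm (Fin n)) (E : Finset (Fin n)) :
    pb (σ * π) E = pb π (pb σ E) := by
  ext i; simp [mem_pb]

theorem exists_pb {n : ℕ} (E F : Finset (Fin n)) (h : E.card = F.card) :
    ∃ σ : Equiv.Perm (Fin n), pb σ F = E := by
  have h1 : Fintype.card {x // x ∈ E} = Fintype.card {x // x ∈ F} := by simpa using h
  obtain ⟨e⟩ := Fintype.card_eq.1 h1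
  refine ⟨e.extendSubtype, ?_⟩
  ext i
  rw [mem_pb]
  constructor
  · intro hi
    by_contra hn
    exact Equiv.extendSubtype_not_mem e i hn hi
  · intro hi
    exact Equiv.extendSubtype_mem e i hi

theorem perm_avg {n : ℕ} (f : Finset (Fin n) → ℝ) (E : Finset (Fin n)) :
    (∑ π : Equiv.Perm (Fin n), f (pb π E)) * (n.choose E.card : ℝ) =
      (Fintype.card (Equiv.Perm (Fin n)) : ℝ) * ∑ F ∈ powersetCard E.card univ, f F := by
  have h1 : ∀ F ∈ powersetCard E.card (univ : Finset (Fin n)),
      ∑ π : Equiv.Perm (Fin n), f (pb π F) = ∑ π : Equiv.Perm (Fin n), f (pb π E) := by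
    intro F hF
    rw [mem_powersetCard] at hF
    obtain ⟨σ, hσ⟩ := exists_pb E F hF.2.symm
    rw [← hσ]
    simp_rw [← pb_mul]
    exact (Equiv.sum_comp (Equiv.mulLeft σ) (fun π => f (pb π F))).symm
  have h2 : ∑ F ∈ powersetCard E.card (univ : Finset (Fin n)), ∑ π : Equiv.Perm (Fin n), f (pb π F) =
      (n.choose E.card : ℝ) * ∑ π : Equiv.Perm (Fin n), f (pb π E) := by
    rw [sum_congr rfl h1, sum_const, card_powersetCard, nsmul_eq_mul]
    simp
  have h3 : ∑ F ∈ powersetCard E.card (univ : Finset (Fin n)), ∑ π : Equiv.Perm (Fin n), f (pb π F) =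
      (Fintype.card (Equiv.Perm (Fin n)) : ℝ) * ∑ F ∈ powersetCard E.card univ, f F := by
    rw [sum_comm]
    have : ∀ π : Equiv.Perm (Fin n), ∑ F ∈ powersetCard E.card (univ : Finset (Fin n)), f (pb π F) =
        ∑ F ∈ powersetCard E.card univ, f F := by
      intro π
      refine sum_bij' (fun F _ => pb π F) (fun F _ => pb π⁻¹ F) ?_ ?_ ?_ ?_ ?_
      · intro F hF
        rw [mem_powersetCard] at hF ⊢
        exact ⟨subset_univ _, by rw [card_pb, hF.2]⟩
      · intro F hF
        rw [mem_powersetCard] at hF ⊢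
        exact ⟨subset_univ _, by rw [card_pb, hF.2]⟩
      · intro F _
        rw [← pb_mul]
        ext i; simp [mem_pb]
      · intro F _
        rw [← pb_mul]
        ext i; simp [mem_pb]
      · intro F _; rfl
    simp_rw [this]
    rw [sum_const, card_univ, nsmul_eq_mul]
  rw [← h3, h2, mul_comm]

end Pool.Agent.K1H64.ST
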