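import Pool.Agent.K1H64.ST.K2
import Pool.Agent.K1H64.ST.Perm

/-! The sum over all sets of size `k`. -/

set_option autoImplicit false

noncomputable section

namespace Pool.Agent.K1H64.ST

open Finset

theorem sum_subsets {n : ℕ} (k : ℕ) (g : Finset (Fin n) → Finset (Fin n) → ℝ) :
    ∑ F ∈ powersetCard k (univ : Finset (Fin n)), ∑ W ∈ F.powerset, g F W =
    ∑ W : Finset (Fin n), if W.card ≤ k then
      ∑ E ∈ powersetCard (k - W.card) (univ \ W), g (E ∪ W) W else 0 := by
  have h1 : ∑ F ∈ powersetCard k (univ : Finset (Fin n)), ∑ W ∈ F.powerset, g F W =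
      ∑ W : Finset (Fin n), ∑ F ∈ (powersetCard k (univ : Finset (Fin n))).filter (fun F => W ⊆ F), g F W := by
    refine sum_comm' ?_
    intro F W
    simp
  rw [h1]
  refine sum_congr rfl fun W _ => ?_
  split_ifs with h
  · refine sum_bij' (fun F _ => F \ W) (fun E _ => E ∪ W) ?_ ?_ ?_ ?_ ?_
    · intro F hF
      simp only [mem_filter, mem_powersetCard] at hF ⊢
      refine ⟨sdiff_subset_sdiff (subset_univ _) subset_rfl, ?_⟩
      rw [card_sdiff_of_subset hF.2, hF.1.2]
    · intro E hE
      simp only [mem_filter, mem_powersetCard] at hE ⊢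
      refine ⟨⟨subset_univ _, ?_⟩, subset_union_right⟩
      rw [card_union_of_disjoint, hE.2]
      · omega
      · exact disjoint_of_subset_left hE.1 sdiff_disjoint
    · intro F hF
      simp only [mem_filter, mem_powersetCard] at hF
      exact sdiff_union_of_subset hF.2
    · intro E hE
      simp only [mem_powersetCard] at hE
      rw [union_sdiff_right]
      exact sdiff_eq_self_of_disjoint (disjoint_of_subset_left hE.1 sdiff_disjoint)
    · intro F hF
      simp only [mem_filter, mem_powersetCard] at hF
      simp only [sdiff_union_of_subset hF.2]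
  · have : (powersetCard k (univ : Finset (Fin n))).filter (fun F => W ⊆ F) = ∅ := by
      rw [filter_eq_empty_iff]
      intro F hF hW
      rw [mem_powersetCard] at hF
      have := card_le_card hW
      omega
    rw [this, sum_empty]

theorem coll_sum (hT : S_TUP) {n ρ : ℕ} {S : Type*} [Fintype S] (z : S → Cube (n + 1))
    (z' : Finset (Fin n) → S → Cube (n + 1)) (cond : Finset (Fin n) → S → Prop)
    [∀ F, DecidablePred (cond F)] (β Z : ℝ) (hβ : 0 ≤ β) (hZ : 0 ≤ Z)
    (h : ∀ (W : Finset (Fin n)) (j : ℕ), ∑ E ∈ powersetCard j (univ \ W),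
      ((univ.filter (fun u : S => cond (E ∪ W) u ∧
        ∀ l ∈ E, z u l.succ = z' (E ∪ W) u l.succ)).card : ℝ) ≤ β ^ j / (j.factorial : ℝ) * Z)
    (k : ℕ) :
    ∑ F ∈ powersetCard k (univ : Finset (Fin n)), ∑ u : S,
      (if cond F u then K2 ρ (z u) (z' F u) else 0) ≤
    ((ρ + ρ).factorial : ℝ) / (Real.sqrt (n + 1)) ^ (ρ + ρ) *
      ((Real.sqrt (n + 1) + β) ^ k / (k.factorial : ℝ) * Z) := by
  set q := Real.sqrt (n + 1) with hq
  have hq1 : 1 ≤ q := by
    rw [hq]; rw [Real.one_le_sqrt]; have : (0:ℝ) ≤ n := by positivity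
    linarith
  have hq0 : 0 < q := by linarith
  set κ : ℝ := ((ρ + ρ).factorial : ℝ) / q ^ (ρ + ρ) with hκ
  have hκ0 : 0 ≤ κ := by positivity
  -- step 1
  have h1 : ∀ F : Finset (Fin n), ∀ u : S, (if cond F u then K2 ρ (z u) (z' F u) else 0) ≤
      ∑ W ∈ F.powerset, κ * (q⁻¹ ^ W.card *
        (if cond F u ∧ ∀ l ∈ F \ W, z u l.succ = z' F u l.succ then 1 else 0)) := by
    intro F u
    split_ifs with hc
    · set W1 := F.filter (fun l => z u l.succ ≠ z' F u l.succ) with hW1
      have hmem : W1 ∈ F.powerset := by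
        rw [mem_powerset]; exact filter_subset _ _
      refine le_trans ?_ (single_le_sum (f := fun W => κ * (q⁻¹ ^ W.card *
        (if cond F u ∧ ∀ l ∈ F \ W, z u l.succ = z' F u l.succ then 1 else 0))) ?_ hmem)
      · have h2 : cond F u ∧ ∀ l ∈ F \ W1, z u l.succ = z' F u l.succ := by
          refine ⟨hc, fun l hl => ?_⟩
          rw [mem_sdiff, hW1, mem_filter, not_and] at hl
          exact not_not.1 (hl.2 hl.1)
        simp only [if_pos h2, mul_one]
        refine (K2_le hT (Nat.succ_pos n) _ _).trans ?_
        have h3 : Real.sqrt ((Nat.succ n : ℕ) : ℝ) = q := by rw [hq]; push_cast; rfl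
        rw [h3, pow_add, hκ, inv_pow, div_mul_eq_div_div]
        rw [← div_eq_mul_inv]
        refine div_le_div_of_nonneg_left (by positivity) (by positivity) ?_
        refine pow_le_pow_right₀ hq1 ?_
        have h4 : W1.map (Fin.succEmb n) ⊆ univ.filter (fun i => z u i ≠ z' F u i) := by
          intro i hi
          rw [mem_map] at hi
          obtain ⟨l, hl, rfl⟩ := hi
          rw [hW1, mem_filter] at hl
          simpa using hl.2
        have h5 := card_le_card h4
        rw [card_map] at h5
        exact h5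
      · intro W _
        have : (0:ℝ) ≤ (if cond F u ∧ ∀ l ∈ F \ W, z u l.succ = z' F u l.succ then 1 else 0) := by
          split_ifs <;> norm_num
        positivity
    · refine sum_nonneg fun W _ => ?_
      have : (0:ℝ) ≤ (if cond F u ∧ ∀ l ∈ F \ W, z u l.succ = z' F u l.succ then 1 else 0) := by
        split_ifs <;> norm_num
      positivity
  calc ∑ F ∈ powersetCard k (univ : Finset (Fin n)), ∑ u : S,
      (if cond F u then K2 ρ (z u) (z' F u) else 0)
      ≤ ∑ F ∈ powersetCard k (univ : Finset (Fin n)), ∑ u : S, ∑ W ∈ F.powerset, κ * (q⁻¹ ^ W.card *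
        (if cond F u ∧ ∀ l ∈ F \ W, z u l.succ = z' F u l.succ then 1 else 0)) :=
        sum_le_sum fun F _ => sum_le_sum fun u _ => h1 F u
    _ = ∑ F ∈ powersetCard k (univ : Finset (Fin n)), ∑ W ∈ F.powerset, κ * (q⁻¹ ^ W.card *
        ((univ.filter (fun u : S => cond F u ∧ ∀ l ∈ F \ W, z u l.succ = z' F u l.succ)).card : ℝ)) := by
        refine sum_congr rfl fun F _ => ?_
        rw [sum_comm]
        refine sum_congr rfl fun W _ => ?_
        rw [← mul_sum, ← mul_sum, sum_boole]
    _ = ∑ W : Finset (Fin n), if W.card ≤ k then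
      ∑ E ∈ powersetCard (k - W.card) (univ \ W), κ * (q⁻¹ ^ W.card *
        ((univ.filter (fun u : S => cond (E ∪ W) u ∧ ∀ l ∈ (E ∪ W) \ W,
          z u l.succ = z' (E ∪ W) u l.succ)).card : ℝ)) else 0 := sum_subsets k _
    _ ≤ ∑ W : Finset (Fin n), if W.card ≤ k then
          κ * (q⁻¹ ^ W.card * (β ^ (k - W.card) / ((k - W.card).factorial : ℝ) * Z)) else 0 := by
        refine sum_le_sum fun W _ => ?_
        split_ifs with hW
        · rw [← mul_sum, ← mul_sum]
          refine mul_le_mul_of_nonneg_left (mul_le_mul_of_nonneg_left ?_ (by positivity)) hκ0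
          refine le_trans (le_of_eq ?_) (h W (k - W.card))
          refine sum_congr rfl fun E hE => ?_
          have h6 : (E ∪ W) \ W = E := by
            rw [union_sdiff_right]
            rw [mem_powersetCard] at hE
            exact sdiff_eq_self_of_disjoint (disjoint_of_subset_left hE.1 sdiff_disjoint)
          rw [h6]
        · exact le_rfl
    _ = ∑ w ∈ range (n + 1), (n.choose w : ℝ) * (if w ≤ k then
          κ * (q⁻¹ ^ w * (β ^ (k - w) / ((k - w).factorial : ℝ) * Z)) else 0) := by
        have := sum_powerset_apply_card (x := (univ : Finset (Fin n))) (fun w => if w ≤ k then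
          κ * (q⁻¹ ^ w * (β ^ (k - w) / ((k - w).factorial : ℝ) * Z)) else 0)
        rw [powerset_univ] at this
        rw [this]
        simp [nsmul_eq_mul]
    _ ≤ ∑ w ∈ range (k + 1), (q ^ (2 * w) / (w.factorial : ℝ)) *
          (κ * (q⁻¹ ^ w * (β ^ (k - w) / ((k - w).factorial : ℝ) * Z))) := by
        have h7 : ∀ w ∈ range (n + 1), (n.choose w : ℝ) * (if w ≤ k then
          κ * (q⁻¹ ^ w * (β ^ (k - w) / ((k - w).factorial : ℝ) * Z)) else 0) ≤
          if w ≤ k then (q ^ (2 * w) / (w.factorial : ℝ)) *
          (κ * (q⁻¹ ^ w * (β ^ (k - w) / ((k - w).factorial : ℝ) * Z))) else 0 := by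
          intro w _
          split_ifs with hw
          · refine mul_le_mul_of_nonneg_right ?_ (by positivity)
            refine (Nat.choose_le_pow_div w n).trans ?_
            gcongr
            rw [pow_mul, hq, Real.sq_sqrt (by positivity)]
            gcongr
            linarith
          · simp
        refine (sum_le_sum h7).trans ?_
        rw [← sum_filter]
        refine sum_le_sum_of_subset_of_nonneg ?_ ?_
        · intro w hw
          rw [mem_filter] at hw
          rw [mem_range]; omega
        · intro w _ _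
          positivity
    _ = κ * ((q + β) ^ k / (k.factorial : ℝ) * Z) := by
        rw [add_pow, sum_div, sum_mul, mul_sum]
        refine sum_congr rfl fun w hw => ?_
        rw [mem_range] at hw
        have h8 : (k.choose w : ℝ) = (k.factorial : ℝ) / (w.factorial * (k - w).factorial) := by
          rw [Nat.choose_eq_factorial_div_factorial (by omega), Nat.cast_div
            (Nat.factorial_mul_factorial_dvd_factorial (by omega)) (by positivity)]
          push_cast; ring
        rw [h8]
        have h9 : q ^ (2 * w) * q⁻¹ ^ w = q ^ w := by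
          rw [two_mul, pow_add, mul_assoc, ← mul_pow, mul_inv_cancel₀ hq0.ne', one_pow, mul_one]
        have hk : (k.factorial : ℝ) ≠ 0 := by positivity
        have hw' : (w.factorial : ℝ) ≠ 0 := by positivity
        have hkw : ((k - w).factorial : ℝ) ≠ 0 := by positivity
        have h10 : (q ^ (2 * w) / (w.factorial : ℝ)) *
          (κ * (q⁻¹ ^ w * (β ^ (k - w) / ((k - w).factorial : ℝ) * Z))) =
          (q ^ (2 * w) * q⁻¹ ^ w) / (w.factorial : ℝ) * κ *
            (β ^ (k - w) / ((k - w).factorial : ℝ) * Z) := by ring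
        rw [h10, h9]
        field_simp

end Pool.Agent.K1H64.ST
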