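import Mathlib

/-!
# Average stretch of bijections onto half of the cube (MP_621e06_co, frozen statement S09154)

Interface file: definitions and the statements `S_...` of the pieces of the proof.
Half I (geometry of semi-discrete optimal transport on a grid) : `S_POT`, `S_TAIL`, `S_LINE`,
`S_RANK`, `S_TOP`, `S_NF`, `S_STR`, `S_ZE`, `S_ETA`, `S_SMALL`, `S_COL1`, `S_COL2`, `S_SYS`.
Half II (coding, seeds, second moment, matching): `S_CODE`, `S_TUP`, `S_MATCH`, `S_FST`,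
`S_STRF`, `S_JOINT`, `S_VAR`, `S_FIN`.
-/

set_option autoImplicit false

noncomputable section

namespace Pool.Agent.K1H64.ST

open Finset

/-- The cube. -/
abbrev Cube (n : ℕ) := Fin n → Bool

/-- Flip the coordinates of `S` (cube). -/
def flipV {n : ℕ} (S : Finset (Fin n)) (x : Cube n) : Cube n := fun i => xor (x i) (decide (i ∈ S))

/-! ## Half I : the grid and the potentials -/

/-- The sign of a bit: `true ↦ 1`, `false ↦ -1`. -/
def sn (b : Bool) : ℤ := if b then 1 else -1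

/-- The `2M` odd integers between `-(2M-1)` and `2M-1`. -/
def box (M : ℕ) : Finset ℤ := (Finset.Icc (1 - 2 * (M : ℤ)) (2 * (M : ℤ) - 1)).filter (fun t => Odd t)

/-- The grid `(box M)^n`. -/
def grid (n M : ℕ) : Finset (Fin n → ℤ) := Fintype.piFinset (fun _ => box M)

/-- `a · x`. -/
def dot {n : ℕ} (a : Cube n) (x : Fin n → ℤ) : ℤ := ∑ l, sn (a l) * x l

/-- A potential `c` on `A` without ties on `ℤ^n`; `T x` is the maximiser over `A` of `a·x - c a`. -/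
structure Pot (n : ℕ) (A : Finset (Cube n)) where
  c : Cube n → ℝ
  T : (Fin n → ℤ) → Cube n
  mem : ∀ x, T x ∈ A
  best : ∀ x, ∀ a ∈ A, a ≠ T x → (dot a x : ℝ) - c a < (dot (T x) x : ℝ) - c (T x)
  norm : ∑ a ∈ A, c a = 0

variable {n : ℕ} {A : Finset (Cube n)}

/-- The cell of `a` in the grid. -/
def Pot.cell (P : Pot n A) (M : ℕ) (a : Cube n) : Finset (Fin n → ℤ) :=
  (grid n M).filter (fun x => P.T x = a)

/-- Every cell has about the average size (`|A| = 2^(n-1)`, so the average size is `2 M^n`). -/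
def Pot.Bal (P : Pot n A) (M : ℕ) (δ : ℝ) : Prop :=
  ∀ a ∈ A, (1 - δ) * (2 * (M : ℝ) ^ n) ≤ ((P.cell M a).card : ℝ) ∧
    ((P.cell M a).card : ℝ) ≤ (1 + δ) * (2 * (M : ℝ) ^ n)

/-- Flip the signs of the coordinates in `S` (grid). -/
def flipS (S : Finset (Fin n)) (x : Fin n → ℤ) : Fin n → ℤ := fun l => if l ∈ S then - x l else x l

/-- `η(x) = (|x|_1 - max_a (a·x - c_a)) / 2M`. -/
def Pot.eta (P : Pot n A) (M : ℕ) (x : Fin n → ℤ) : ℝ :=
  ((∑ l, |x l| : ℤ) - ((dot (P.T x) x : ℝ) - P.c (P.T x))) / (2 * M)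

/-- `ζ(a) = - c_a / 2M`. -/
def Pot.zeta (P : Pot n A) (M : ℕ) (a : Cube n) : ℝ := - P.c a / (2 * M)

/-- The set of coordinates where `T x` differs from the sign vector of `x`. -/
def Pot.D (P : Pot n A) (x : Fin n → ℤ) : Finset (Fin n) :=
  univ.filter (fun l => sn (P.T x l) * x l < 0)

/-- The transport cost `2 Σ_{l ∈ D} |x_l| / 2M` (equal to `η(x) + ζ(T x)`). -/
def Pot.cost (P : Pot n A) (M : ℕ) (x : Fin n → ℤ) : ℝ :=
  (∑ l ∈ P.D x, (|x l| : ℝ)) / M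

/-- Truncation to `[U, 2U]`. -/
def clip (U z : ℝ) : ℝ := min (max z U) (2 * U)

/-- (M2) Existence of potentials with nearly equal cells. -/
def S_POT : Prop := ∀ n : ℕ, 1 ≤ n → ∀ A : Finset (Cube n), 2 * A.card = 2 ^ n →
  ∀ δ : ℝ, 0 < δ → ∃ M0 : ℕ, ∀ M : ℕ, M0 ≤ M → ∃ P : Pot n A, P.Bal M δ

/-- (M7) Exponential tails (property (τ)). -/
def S_TAIL : Prop := ∃ C : ℝ, 1 ≤ C ∧ ∀ n : ℕ, 1 ≤ n → ∀ A : Finset (Cube n), 2 * A.card = 2 ^ n →
  ∀ M : ℕ, C * n ≤ M → ∀ P : Pot n A, P.Bal M (1 / (2 * n)) →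
    ∑ x ∈ grid n M, Real.exp (P.eta M x / 4) ≤ C * (2 * M) ^ n ∧
    ∑ x ∈ grid n M, Real.exp (P.zeta M (P.T x) / 4) ≤ C * (2 * M) ^ n

/-- The neighbour of `p` in direction `(i, b)`: coordinate `i` is moved by `±2`. -/
def nb (p : Fin n → ℤ) (i : Fin n) (b : Bool) : Fin n → ℤ := Function.update p i (p i + 2 * sn b)

/-- Oriented jump edges `(p, i, b)`: both ends in the grid, `T` changes along the edge. -/
def Pot.JE (P : Pot n A) (M : ℕ) : Finset ((Fin n → ℤ) × Fin n × Bool) :=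
  ((grid n M) ×ˢ (univ ×ˢ univ)).filter
    (fun t => nb t.1 t.2.1 t.2.2 ∈ grid n M ∧ P.T (nb t.1 t.2.1 t.2.2) ≠ P.T t.1)

/-- Number of points of a finite set `S` with the same coordinates as `x` before `l`. -/
def pre (S : Finset (Fin n → ℤ)) (l : Fin n) (x : Fin n → ℤ) : Finset (Fin n → ℤ) :=
  S.filter (fun z => ∀ k, k < l → z k = x k)

/-- Fraction of the points `z` of `S` with the prefix of `x` such that `z_l` is strictly below `x_l`
in the direction `b`. -/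
def rk (S : Finset (Fin n → ℤ)) (b : Bool) (l : Fin n) (x : Fin n → ℤ) : ℝ :=
  (((pre S l x).filter (fun z => sn b * z l < sn b * x l)).card : ℝ) / ((pre S l x).card : ℝ)

/-- Same, weakly below. -/
def rkw (S : Finset (Fin n → ℤ)) (b : Bool) (l : Fin n) (x : Fin n → ℤ) : ℝ :=
  (((pre S l x).filter (fun z => sn b * z l ≤ sn b * x l)).card : ℝ) / ((pre S l x).card : ℝ)

/-- (M3) The entropic line sum: the sum over all oriented jump edges `p → q` of the fraction of the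
cell of `T q` (with the prefix of `q`) which is strictly below `q` in the direction of the jump. -/
def S_LINE : Prop := ∀ n : ℕ, 1 ≤ n → ∀ A : Finset (Cube n), ∀ M : ℕ, 1 ≤ M → ∀ P : Pot n A,
  P.Bal M (1 / 4) →
    ∑ t ∈ P.JE M, rk (P.cell M (P.T (nb t.1 t.2.1 t.2.2))) t.2.2 t.2.1 (nb t.1 t.2.1 t.2.2)
      ≤ 2 * (2 * M) ^ (n - 1)

/-- (M4) The rank lemma. -/
def S_RANK : Prop := ∀ (n : ℕ) (S : Finset (Fin n → ℤ)) (b : Fin n → Bool) (J : Finset (Fin n))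
  (u : ℝ), 0 ≤ u →
    ((S.filter (fun x => ∀ l ∈ J, rkw S (b l) l x ≤ u)).card : ℝ) ≤ u ^ J.card * S.card

/-- (M8, first part) The faces of a cell: `S` is any finite set which is an up-set in the
direction `a` inside the grid, and contains the corner. -/
def S_TOP : Prop := ∀ (n M : ℕ), 1 ≤ M → ∀ (a : Cube n) (S : Finset (Fin n → ℤ)), S.Nonempty →
  S ⊆ grid n M →
  (∀ x ∈ S, ∀ y ∈ grid n M, (∀ l, sn (a l) * x l ≤ sn (a l) * y l) → y ∈ S) →
    ∑ l, (1 - M * ((S.filter (fun z => sn (a l) * z l = 2 * M - 1)).card : ℝ) / S.card) ≤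
      Real.log ((S.card : ℝ) / M ^ n)

/-- `(p, a)` is a full pair: for all coordinates `l` where `a` and `T p` differ, the neighbour of `p`
in the direction `a_l` is in the grid and in the cell of `a`. -/
def Pot.Full (P : Pot n A) (M : ℕ) (p : Fin n → ℤ) (a : Cube n) : Prop :=
  a ≠ P.T p ∧ ∀ l, a l ≠ P.T p l → nb p l (a l) ∈ grid n M ∧ P.T (nb p l (a l)) = a

/-- (M5) Few oriented jump edges do not belong to full pairs. -/
def S_NF : Prop := ∀ (n : ℕ), 2 ≤ n → ∀ (A : Finset (Cube n)) (M : ℕ), 1 ≤ M → ∀ (P : Pot n A),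
  (open Classical in (((P.JE M).filter (fun t : (Fin n → ℤ) × Fin n × Bool =>
    ¬ (P.Full M t.1 (P.T (nb t.1 t.2.1 t.2.2))))).card : ℝ)) ≤
    2 * n * (n * (A.card : ℝ) ^ 2 + (A.card : ℝ) ^ 3) * (2 * M) ^ (n - 2)

/-- (M6) The stretch of the transport map. -/
def S_STR : Prop := ∃ C : ℝ, 0 < C ∧ ∀ n : ℕ, 2 ≤ n → ∀ A : Finset (Cube n), 2 * A.card = 2 ^ n →
  ∃ M0 : ℕ, ∀ M : ℕ, M0 ≤ M → ∀ P : Pot n A, P.Bal M (1 / (2 * n)) →
    ∑ i : Fin n, ∑ x ∈ grid n M, (hammingDist (P.T x) (P.T (flipS {i} x)) : ℝ) ≤ C * n * (2 * M) ^ n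

/-- (M6') the sum over full pairs of `|K|^2`. -/
def S_STR2 : Prop := ∃ C : ℝ, 0 < C ∧ ∀ n : ℕ, 2 ≤ n → ∀ A : Finset (Cube n), 2 * A.card = 2 ^ n →
  ∃ M0 : ℕ, ∀ M : ℕ, M0 ≤ M → ∀ P : Pot n A, P.Bal M (1 / (2 * n)) →
    ∑ p ∈ grid n M, ∑ a ∈ A, (open Classical in if P.Full M p a then
      (hammingDist a (P.T p) : ℝ) ^ 2 else 0) ≤ C * n * (2 * M) ^ (n - 1)

/-- (M8) The energy bound for `ζ`. -/
def S_ZE : Prop := ∃ C : ℝ, 0 < C ∧ ∀ n : ℕ, 2 ≤ n → ∀ A : Finset (Cube n), 2 * A.card = 2 ^ n →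
  ∀ ε : ℝ, 0 < ε → ∃ M0 : ℕ, ∀ M : ℕ, M0 ≤ M → ∀ P : Pot n A, P.Bal M (1 / (2 * n)) →
    ∀ U : ℝ, 1 ≤ U →
    ∑ i : Fin n, ∑ x ∈ grid n M,
      |clip U (P.zeta M (P.T x)) - clip U (P.zeta M (P.T (flipS {i} x)))| ≤
        (C * Real.sqrt n * Real.exp (-U / 16) + ε) * (2 * M) ^ n

/-- Choice of thresholds. -/
def S_THR : Prop := ∀ (κ : Type) (I : Finset κ) (f g : κ → ℝ) (U : ℝ), 0 < U →
  ∃ u : ℝ, U ≤ u ∧ u ≤ 2 * U ∧
    U * ((I.filter (fun k => ¬ (u ≤ f k ↔ u ≤ g k))).card : ℝ) ≤ ∑ k ∈ I, |clip U (f k) - clip U (g k)|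

/-- The variation of `η`. -/
def S_ETA : Prop := ∃ C : ℝ, 0 < C ∧ ∀ n : ℕ, 2 ≤ n → ∀ A : Finset (Cube n), 2 * A.card = 2 ^ n →
  ∀ ε : ℝ, 0 < ε → ∃ M0 : ℕ, ∀ M : ℕ, M0 ≤ M → ∀ P : Pot n A, P.Bal M (1 / (2 * n)) →
    ∀ U : ℝ, 1 ≤ U →
    ∑ i : Fin n, ∑ x ∈ grid n M,
      |clip U (P.eta M x) - clip U (P.eta M (flipS {i} x))| ≤
        (C * Real.sqrt n * Real.exp (-U / 16) + ε) * (2 * M) ^ n

/-- Few points have more than `2nτ` coordinates of size `≤ τ`: exponential moment of the number of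
coordinates with `|x_l| ≤ 2 τ M`. -/
def S_SMALL : Prop := ∀ (n M : ℕ), 1 ≤ M → ∀ τ : ℝ, 1 / M ≤ τ →
  ∑ x ∈ grid n M, (2 : ℝ) ^ ((univ.filter (fun l => (|x l| : ℝ) ≤ 2 * τ * M)).card) ≤
    Real.exp (2 * τ * n) * (2 * M) ^ n

/-- The grid point with signs `s` and magnitudes `2 r + 1`. -/
def pt {n M : ℕ} (s : Cube n) (r : Fin n → Fin M) : Fin n → ℤ := fun l => sn (s l) * (2 * ((r l : ℕ) : ℤ) + 1)

/-- (M9) Collisions, same magnitudes. -/
def S_COL1 : Prop := ∀ (n M : ℕ), 1 ≤ n → 1 ≤ M → ∀ (A : Finset (Cube n)) (P : Pot n A)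
  (W : Finset (Fin n)) (j : ℕ) (t : ℝ), 0 < t →
    ∑ E ∈ powersetCard j (univ \ W),
      ((univ.filter (fun q : Cube n × (Fin n → Fin M) =>
        P.cost M (pt q.1 q.2) ≤ 2 * t ∧ P.cost M (pt (flipV (E ∪ W) q.1) q.2) ≤ 2 * t ∧
        ∀ l ∈ E, P.T (pt q.1 q.2) l = P.T (pt (flipV (E ∪ W) q.1) q.2) l)).card : ℝ)
      ≤ (Real.sqrt (32 * t * n)) ^ j / (j.factorial : ℝ) * (2 * M) ^ n

/-- (M9) Collisions, independent magnitudes. -/
def S_COL2 : Prop := ∀ (n M : ℕ), 1 ≤ n → 1 ≤ M → ∀ (A : Finset (Cube n)) (P : Pot n A)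
  (W : Finset (Fin n)) (j : ℕ) (t : ℝ), 0 < t →
    ∑ E ∈ powersetCard j (univ \ W),
      ((univ.filter (fun q : Cube n × (Fin n → Fin M) × (Fin n → Fin M) =>
        P.cost M (pt q.1 q.2.1) ≤ 2 * t ∧ P.cost M (pt (flipV (E ∪ W) q.1) q.2.2) ≤ 2 * t ∧
        ∀ l ∈ E, P.T (pt q.1 q.2.1) l = P.T (pt (flipV (E ∪ W) q.1) q.2.2) l)).card : ℝ)
      ≤ (Real.sqrt (32 * t * n)) ^ j / (j.factorial : ℝ) * ((2 * M) ^ n * M ^ n)

/-! ## The interface between the two halves -/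

/-- Displacement of the last `n` coordinates. -/
def disp {n : ℕ} (s : Cube n) (z : Cube (n + 1)) : ℕ := (univ.filter (fun i : Fin n => z i.succ ≠ s i)).card

/-- A transport system on the cube `{0,1}^n` with seeds `Fin N` and values in `A ⊆ {0,1}^(n+1)`,
with classes `cl s ω`; the good classes are `0, ..., cm - 1`. -/
structure Sys (C : ℝ) (n : ℕ) (A : Finset (Cube (n + 1))) (N : ℕ)
    (T : Cube n → Fin N → Cube (n + 1)) (cl : Cube n → Fin N → ℕ) (cm : ℕ) : Prop where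
  posN : 0 < N
  cm1 : 1 ≤ cm
  cmle : (4 : ℝ) ^ cm ≤ C * Real.log (n + 2)
  mem : ∀ s ω, T s ω ∈ A
  mass : ∀ a ∈ A, |((univ.filter (fun q : Cube n × Fin N => T q.1 q.2 = a)).card : ℝ) - N| ≤
    N / (n + 1) ^ 10
  str : ∑ i : Fin n, ∑ s : Cube n, ∑ ω : Fin N, (hammingDist (T s ω) (T (flipV {i} s) ω) : ℝ) ≤
    C * (n + 1) * 2 ^ n * N
  strad : ∑ c ∈ range cm, 2 ^ c * ∑ i : Fin n,
    ((univ.filter (fun q : Cube n × Fin N =>
      ¬ (cl q.1 q.2 = c ↔ cl (flipV {i} q.1) q.2 = c))).card : ℝ) ≤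
    C * Real.sqrt (n + 1) * 2 ^ n * N
  clm : ∑ c ∈ range cm, 4 ^ c * ((univ.filter (fun q : Cube n × Fin N => cl q.1 q.2 = c)).card : ℝ) ≤
    C * 2 ^ n * N
  bad : ((univ.filter (fun q : Cube n × Fin N => cm ≤ cl q.1 q.2)).card : ℝ) ≤
    C * 2 ^ n * N / (n + 1) ^ 4
  disp : ((univ.filter (fun q : Cube n × Fin N => cl q.1 q.2 < cm ∧
      C * 2 ^ (cl q.1 q.2) * Real.sqrt (n + 1) < (disp q.1 (T q.1 q.2) : ℝ))).card : ℝ) ≤
    C * 2 ^ n * N * (1 / 2) ^ (Nat.sqrt (n + 1))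
  col1 : ∀ c < cm, ∀ (W : Finset (Fin n)) (j : ℕ),
    ∑ E ∈ powersetCard j (univ \ W),
      ((univ.filter (fun q : Cube n × Fin N => cl q.1 q.2 ≤ c ∧ cl (flipV (E ∪ W) q.1) q.2 ≤ c ∧
        ∀ l ∈ E, T q.1 q.2 l.succ = T (flipV (E ∪ W) q.1) q.2 l.succ)).card : ℝ)
    ≤ (C * 2 ^ c * Real.sqrt (n + 1)) ^ j / (j.factorial : ℝ) * (2 ^ n * N)
  col2 : ∀ (W : Finset (Fin n)) (j : ℕ),
    ∑ E ∈ powersetCard j (univ \ W),
      ((univ.filter (fun q : Cube n × Fin N × Fin N => cl q.1 q.2.1 < cm ∧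
        cl (flipV (E ∪ W) q.1) q.2.2 < cm ∧
        ∀ l ∈ E, T q.1 q.2.1 l.succ = T (flipV (E ∪ W) q.1) q.2.2 l.succ)).card : ℝ)
    ≤ (C * 2 ^ cm * Real.sqrt (n + 1)) ^ j / (j.factorial : ℝ) * (2 ^ n * N ^ 2)

/-- Half I. -/
def S_SYS : Prop := ∃ C : ℝ, 1 ≤ C ∧ ∃ n0 : ℕ, ∀ n : ℕ, n0 ≤ n → ∀ A : Finset (Cube (n + 1)),
  A.card = 2 ^ n → ∃ (N : ℕ) (T : Cube n → Fin N → Cube (n + 1)) (cl : Cube n → Fin N → ℕ) (cm : ℕ),
    Sys C n A N T cl cm

/-! ## Half II -/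

/-- Bitwise xor. -/
def xorV {n : ℕ} (x y : Cube n) : Cube n := fun i => xor (x i) (y i)

/-- The set of ones. -/
def ones {n : ℕ} (x : Cube n) : Finset (Fin n) := univ.filter (fun i => x i = true)

/-- The code: supports of `L x` for the nonzero `x` which vanish on `B`. -/
def code {n : ℕ} (L : Cube n → Cube n) (B : Finset (Fin n)) : Finset (Finset (Fin n)) :=
  (univ.filter (fun x : Cube n => (∀ i ∈ B, x i = false) ∧ x ≠ fun _ => false)).image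
    (fun x => ones (L x))

/-- A system of codes for `n + 1 = 4^m`. -/
structure CodeSys (b : ℕ) (K : ℕ → ℝ) (m n : ℕ) (L : Cube n → Cube n) (B : ℕ → Finset (Fin n)) :
    Prop where
  bij : Function.Bijective L
  lin : ∀ x y, L (xorV x y) = xorV (L x) (L y)
  row : ∀ i : Fin n, (ones (L (fun k => decide (k = i)))).card ≤ 4
  col : ∀ q : Fin n, (univ.filter (fun i : Fin n => L (fun k => decide (k = i)) q = true)).card ≤ 4
  mono : ∀ c, B c ⊆ B (c + 1)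
  card : ∀ c, ((B c).card : ℝ) ≤ 2 ^ (c + b + 2) * 2 ^ m
  enum : ∀ c, c + b ≤ m → ∀ z : ℝ, 0 ≤ z → 2 ^ m * z ≤ 2 ^ c * 2 ^ b / 2 →
    ∑ E ∈ code L (B c), z ^ E.card ≤ 2 ^ (4 ^ (c + b))
  sparse : ∀ j k : ℕ, j ≤ k → 2 * k ≤ n + 1 →
    (((code L (B 0)).filter (fun E => E.card = k)).card : ℝ) ≤
      K j * (n.choose k : ℝ) / (Real.sqrt (n + 1)) ^ j

/-- (M10) -/
def S_CODE : Prop := ∀ b : ℕ, 1 ≤ b → ∃ K : ℕ → ℝ, ∀ m n : ℕ, b ≤ m → n + 1 = 4 ^ m →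
  ∃ (L : Cube n → Cube n) (B : ℕ → Finset (Fin n)), CodeSys b K m n L B

/-- Number of `j`-tuples of elements of a finite type with prescribed parities. -/
def S_TUP : Prop := ∀ (ι : Type) [Fintype ι] [DecidableEq ι] (j : ℕ) (v : Finset ι),
  (((univ.filter (fun t : Fin j → ι =>
    ∀ r, Odd ((univ.filter (fun a => t a = r)).card) ↔ r ∈ v)).card : ℝ)) *
      (Real.sqrt (Fintype.card ι)) ^ v.card ≤ (j.factorial : ℝ) * (Real.sqrt (Fintype.card ι)) ^ j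

/-- The smoothing kernel: flip `ρ` independent uniform coordinates. `PK ρ z y` is the probability
of going from `z` to `y`. -/
def PK (ρ : ℕ) {n : ℕ} (z y : Cube n) : ℝ :=
  ((univ.filter (fun t : Fin ρ → Fin n =>
    (fun i => xor (z i) (decide (Odd (univ.filter (fun a => t a = i)).card))) = y)).card : ℝ) /
    (n : ℝ) ^ ρ

/-- (M13) From small `L¹` discrepancy after smoothing to a bijection. -/
def S_MATCH : Prop := ∀ (n ρ : ℕ) (A : Finset (Cube (n + 1))), A.card = 2 ^ n →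
  ∀ F : Cube n → Cube (n + 1), ∃ g : Cube n → Cube (n + 1), Function.Injective g ∧
    Set.range g = (A : Set (Cube (n + 1))) ∧
    ∑ x, (hammingDist (F x) (g x) : ℝ) ≤ 2 * ρ * 2 ^ n + (n + 1) *
      ∑ y, |∑ z, (((univ.filter (fun x => F x = z)).card : ℝ) - if z ∈ A then 1 else 0) * PK ρ z y|

/-- The first element of `S` in the random order `σ` (default `d` if `S` is empty). -/
def fstσ {N : ℕ} (σ : Equiv.Perm (Fin N)) (S : Finset (Fin N)) (d : Fin N) : Fin N :=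
  if h : S.Nonempty then σ.symm ((S.image σ).min' (h.image _)) else d

/-- The three facts about random orders. -/
def S_FST : Prop := ∀ (N : ℕ) (S S' : Finset (Fin N)) (d : Fin N) (ω ω' : Fin N),
  (ω ∈ S → ((univ.filter (fun σ : Equiv.Perm (Fin N) => fstσ σ S d = ω)).card : ℝ) * S.card
    = (Fintype.card (Equiv.Perm (Fin N)) : ℝ)) ∧
  (ω ∈ S → ω ∈ S' → ((univ.filter (fun σ : Equiv.Perm (Fin N) => fstσ σ S d = ω ∧ fstσ σ S' d = ω)).card
    : ℝ) * (S ∪ S').card = (Fintype.card (Equiv.Perm (Fin N)) : ℝ)) ∧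
  (ω ∈ S → ω' ∈ S' → ω ≠ ω' →
    ((univ.filter (fun σ : Equiv.Perm (Fin N) => fstσ σ S d = ω ∧ fstσ σ S' d = ω')).card : ℝ) *
      (S.card * S'.card) ≤ 2 * (Fintype.card (Equiv.Perm (Fin N)) : ℝ))

/-- Masking. -/
def msk {n : ℕ} (B : Finset (Fin n)) (x : Cube n) : Cube n := fun i => x i && decide (i ∈ B)

/-- The randomness (for a fixed permutation of the coordinates): seeds for the choice of the class,
and random orders of the seeds. -/
abbrev Rnd (n N cm : ℕ) := (Cube n → Fin N) × (Fin cm → Cube n → Equiv.Perm (Fin N))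

section FF

variable {n N cm : ℕ} (T : Cube n → Fin N → Cube (n + 1)) (cl : Cube n → Fin N → ℕ)
  (L : Cube n → Cube n) (B : ℕ → Finset (Fin n)) (π : Equiv.Perm (Fin n)) (R : Rnd n N cm)

/-- The position of `x` in the cube on which `T` is defined. -/
def pos (x : Cube n) : Cube n := fun i => L x (π i)

/-- The class of `x`. -/
def kls (x : Cube n) : ℕ := cl (pos L π x) (R.1 (msk (B 0) x))

/-- The seed of `x`. -/
def seed (x : Cube n) : Fin N :=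
  if h : kls cl L B π R x < cm then
    fstσ (R.2 ⟨kls cl L B π R x, h⟩ (msk (B (kls cl L B π R x)) x))
      (univ.filter (fun ω => cl (pos L π x) ω = kls cl L B π R x)) (R.1 (msk (B 0) x))
  else R.1 (msk (B 0) x)

/-- The random map. -/
def FF (x : Cube n) : Cube (n + 1) := T (pos L π x) (seed cl L B π R x)

/-- `c` is a good class for the position `s`. -/
def gd (cm : ℕ) (s : Cube n) (c : ℕ) : Prop :=
  c < cm ∧ (N : ℝ) ≤ (n + 1) ^ 8 * ((univ.filter (fun ω => cl s ω = c)).card : ℝ)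

/-- `x` is good. -/
def good (x : Cube n) : Prop := gd cl cm (pos L π x) (kls cl L B π R x)

/-- The number of good preimages of `z`. -/
def NN (z : Cube (n + 1)) : ℝ := open Classical in
  ((univ.filter (fun x => good cl L B π R x ∧ FF T cl L B π R x = z)).card : ℝ)

/-- Its expectation (for every `π`). -/
def mean (cm : ℕ) (z : Cube (n + 1)) : ℝ := open Classical in
  ((univ.filter (fun q : Cube n × Fin N => gd cl cm q.1 (cl q.1 q.2) ∧ T q.1 q.2 = z)).card : ℝ) / N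

end FF

/-- (M11) The expected stretch. -/
def S_STRF : Prop := ∀ (C : ℝ) (b : ℕ) (K : ℕ → ℝ), 1 ≤ C → 1 ≤ b → ∃ C' : ℝ, 0 < C' ∧ ∃ m0 : ℕ,
  ∀ m ≥ m0, ∀ n : ℕ, n + 1 = 4 ^ m → ∀ (A : Finset (Cube (n + 1))) (N : ℕ)
  (T : Cube n → Fin N → Cube (n + 1)) (cl : Cube n → Fin N → ℕ) (cm : ℕ), Sys C n A N T cl cm →
  ∀ (L : Cube n → Cube n) (B : ℕ → Finset (Fin n)), CodeSys b K m n L B →
  ∀ π : Equiv.Perm (Fin n),
    ∑ R : Rnd n N cm, ∑ i : Fin n, ∑ x : Cube n,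
      (hammingDist (FF T cl L B π R x) (FF T cl L B π R (flipV {i} x)) : ℝ) ≤
    C' * (n + 1) * 2 ^ n * (Fintype.card (Rnd n N cm) : ℝ)

/-- (M12, first part) The joint law of two points. -/
def S_JOINT : Prop := ∀ (n N cm : ℕ) (T : Cube n → Fin N → Cube (n + 1)) (cl : Cube n → Fin N → ℕ)
  (L : Cube n → Cube n) (B : ℕ → Finset (Fin n)) (π : Equiv.Perm (Fin n)), 0 < N →
  ∀ (x y : Cube n) (z w : Cube (n + 1)), open Classical in
    ((univ.filter (fun R : Rnd n N cm => good cl L B π R x ∧ good cl L B π R y ∧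
      FF T cl L B π R x = z ∧ FF T cl L B π R y = w)).card : ℝ) ≤
    (Fintype.card (Rnd n N cm) : ℝ) *
    ((∑ c ∈ range cm, if msk (B c) x = msk (B c) y then
      ((univ.filter (fun ω : Fin N => cl (pos L π x) ω = c ∧ cl (pos L π y) ω = c ∧
        T (pos L π x) ω = z ∧ T (pos L π y) ω = w)).card : ℝ) / N else 0) +
     2 * (n + 1) ^ 8 *
      (((univ.filter (fun ω : Fin N => cl (pos L π x) ω < cm ∧ T (pos L π x) ω = z)).card : ℝ) / N) *
      (((univ.filter (fun ω : Fin N => cl (pos L π y) ω < cm ∧ T (pos L π y) ω = w)).card : ℝ) / N))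

/-- (M12) The second moment after smoothing. -/
def S_VAR : Prop := ∀ C : ℝ, 1 ≤ C → ∃ b : ℕ, 1 ≤ b ∧ ∀ K : ℕ → ℝ, ∃ (ρ m0 : ℕ),
  ∀ m ≥ m0, ∀ n : ℕ, n + 1 = 4 ^ m → ∀ (A : Finset (Cube (n + 1))) (N : ℕ)
  (T : Cube n → Fin N → Cube (n + 1)) (cl : Cube n → Fin N → ℕ) (cm : ℕ), Sys C n A N T cl cm →
  ∀ (L : Cube n → Cube n) (B : ℕ → Finset (Fin n)), CodeSys b K m n L B →
    ∑ π : Equiv.Perm (Fin n), ∑ R : Rnd n N cm, ∑ y : Cube (n + 1),
      (∑ z, (NN T cl L B π R z - mean T cl cm z) * PK ρ z y) ^ 2 ≤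
    2 ^ n / (n + 1) ^ 6 * ((Fintype.card (Equiv.Perm (Fin n)) : ℝ) * (Fintype.card (Rnd n N cm) : ℝ))

/-- Half II. -/
def S_FIN : Prop := ∀ C : ℝ, 1 ≤ C → ∃ C' : ℝ, ∃ m0 : ℕ, ∀ m ≥ m0, ∀ n : ℕ, n + 1 = 4 ^ m →
  ∀ (A : Finset (Cube (n + 1))), A.card = 2 ^ n → ∀ (N : ℕ)
  (T : Cube n → Fin N → Cube (n + 1)) (cl : Cube n → Fin N → ℕ) (cm : ℕ), Sys C n A N T cl cm →
  ∃ g : Cube n → Cube (n + 1), Function.Injective g ∧ Set.range g = (A : Set (Cube (n + 1))) ∧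
    ∑ x : Cube n, ∑ i : Fin n, (hammingDist (g x) (g (flipV {i} x)) : ℝ) ≤ C' * (n * 2 ^ n)

end Pool.Agent.K1H64.ST
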