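import Pool.Agent.K1H64.ST.Defs

/-! Two more statements on the random map (same technique as `S_JOINT`). -/

set_option autoImplicit false

noncomputable section

namespace Pool.Agent.K1H64.ST

open Finset

/-- The law of one value of the random map. -/
def S_MEAN : Prop := ∀ (n N cm : ℕ) (T : Cube n → Fin N → Cube (n + 1)) (cl : Cube n → Fin N → ℕ)
  (L : Cube n → Cube n) (B : ℕ → Finset (Fin n)) (π : Equiv.Perm (Fin n)), 0 < N →
  ∀ (x : Cube n) (z : Cube (n + 1)), open Classical in
    ((univ.filter (fun R : Rnd n N cm => good cl L B π R x ∧ FF T cl L B π R x = z)).card : ℝ) * N =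
    (Fintype.card (Rnd n N cm) : ℝ) *
      ((univ.filter (fun ω : Fin N => gd cl cm (pos L π x) (cl (pos L π x) ω) ∧
        T (pos L π x) ω = z)).card : ℝ)

/-- Independence of the values at two points with different labels at all levels. -/
def S_INDEP : Prop := ∀ (n N cm : ℕ) (T : Cube n → Fin N → Cube (n + 1)) (cl : Cube n → Fin N → ℕ)
  (L : Cube n → Cube n) (B : ℕ → Finset (Fin n)) (π : Equiv.Perm (Fin n)), 0 < N →
  ∀ (x y : Cube n), (∀ c, msk (B c) x ≠ msk (B c) y) → ∀ (z w : Cube (n + 1)), open Classical in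
    ((univ.filter (fun R : Rnd n N cm => good cl L B π R x ∧ good cl L B π R y ∧
      FF T cl L B π R x = z ∧ FF T cl L B π R y = w)).card : ℝ) * (Fintype.card (Rnd n N cm) : ℝ) =
    ((univ.filter (fun R : Rnd n N cm => good cl L B π R x ∧ FF T cl L B π R x = z)).card : ℝ) *
    ((univ.filter (fun R : Rnd n N cm => good cl L B π R y ∧ FF T cl L B π R y = w)).card : ℝ)

end Pool.Agent.K1H64.ST
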