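import Pool.Agent.K1H64.ST.Var7

/-! Half II: conclusion. -/

set_option autoImplicit false

noncomputable section

namespace Pool.Agent.K1H64.ST

open Finset

section

variable {C : ℝ} {n N : ℕ} {A : Finset (Cube (n + 1))} {T : Cube n → Fin N → Cube (n + 1)}
  {cl : Cube n → Fin N → ℕ} {cm : ℕ}

/-- Number of bad pairs. -/
theorem notgd_le (hC : 1 ≤ C) (h : Sys C n A N T cl cm) : open Classical in
    ((univ.filter (fun q : Cube n × Fin N => ¬ gd cl cm q.1 (cl q.1 q.2))).card : ℝ) ≤
      2 * C * 2 ^ n * N / (n + 1) ^ 4 := by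
  classical
  have hn1 : (1 : ℝ) ≤ (n : ℝ) + 1 := by
    have : (0 : ℝ) ≤ n := by positivity
    linarith
  have hNpos : (0 : ℝ) < N := by exact_mod_cast h.posN
  -- the small classes
  have h1 : ((univ.filter (fun q : Cube n × Fin N => ¬ gd cl cm q.1 (cl q.1 q.2))).card : ℝ) ≤
      ((univ.filter (fun q : Cube n × Fin N => cm ≤ cl q.1 q.2)).card : ℝ) +
      ∑ c ∈ range cm, ∑ s : Cube n, (N : ℝ) / (n + 1) ^ 8 := by
    have e1 : univ.filter (fun q : Cube n × Fin N => ¬ gd cl cm q.1 (cl q.1 q.2)) ⊆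
        univ.filter (fun q : Cube n × Fin N => cm ≤ cl q.1 q.2) ∪
        univ.filter (fun q : Cube n × Fin N => cl q.1 q.2 < cm ∧
          ¬ (N : ℝ) ≤ (n + 1) ^ 8 * ((univ.filter (fun ω => cl q.1 ω = cl q.1 q.2)).card : ℝ)) := by
      intro q hq
      simp only [mem_filter, mem_univ, true_and, mem_union, gd, not_and] at hq ⊢
      by_cases hc : cl q.1 q.2 < cm
      · exact Or.inr ⟨hc, hq hc⟩
      · exact Or.inl (not_lt.1 hc)
    have e2 : ((univ.filter (fun q : Cube n × Fin N => cl q.1 q.2 < cm ∧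
          ¬ (N : ℝ) ≤ (n + 1) ^ 8 * ((univ.filter (fun ω => cl q.1 ω = cl q.1 q.2)).card : ℝ))).card : ℝ)
          ≤ ∑ c ∈ range cm, ∑ s : Cube n, (N : ℝ) / (n + 1) ^ 8 := by
      have e3 : ((univ.filter (fun q : Cube n × Fin N => cl q.1 q.2 < cm ∧
          ¬ (N : ℝ) ≤ (n + 1) ^ 8 * ((univ.filter (fun ω => cl q.1 ω = cl q.1 q.2)).card : ℝ))).card : ℝ)
          = ∑ s : Cube n, ∑ ω : Fin N, if cl s ω < cm ∧
          ¬ (N : ℝ) ≤ (n + 1) ^ 8 * ((univ.filter (fun ω' => cl s ω' = cl s ω)).card : ℝ) then (1:ℝ) else 0 := by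
        rw [← sum_boole, Fintype.sum_prod_type]
      rw [e3, sum_comm (s := range cm)]
      refine sum_le_sum fun s _ => ?_
      have e4 : ∀ ω : Fin N, (if cl s ω < cm ∧
          ¬ (N : ℝ) ≤ (n + 1) ^ 8 * ((univ.filter (fun ω' => cl s ω' = cl s ω)).card : ℝ) then (1:ℝ) else 0)
          = ∑ c ∈ range cm, if cl s ω = c ∧
            ¬ (N : ℝ) ≤ (n + 1) ^ 8 * ((univ.filter (fun ω' => cl s ω' = c)).card : ℝ) then (1:ℝ) else 0 := by
        intro ω
        by_cases hc : cl s ω < cm
        · rw [sum_eq_single (cl s ω)]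
          · simp [hc]
          · intro c _ hne
            rw [if_neg]
            rintro ⟨h1, _⟩
            exact hne h1.symm
          · intro hne
            exact absurd (mem_range.2 hc) hne
        · rw [if_neg (fun h => hc h.1)]
          symm
          refine sum_eq_zero fun c hc' => ?_
          rw [if_neg]
          rintro ⟨h1, _⟩
          rw [mem_range] at hc'
          omega
      simp_rw [e4]
      rw [sum_comm]
      refine sum_le_sum fun c _ => ?_
      by_cases hN : (N : ℝ) ≤ (n + 1) ^ 8 * ((univ.filter (fun ω' => cl s ω' = c)).card : ℝ)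
      · have : ∀ ω : Fin N, (if cl s ω = c ∧
            ¬ (N : ℝ) ≤ (n + 1) ^ 8 * ((univ.filter (fun ω' => cl s ω' = c)).card : ℝ) then (1:ℝ) else 0) = 0 :=
          fun ω => if_neg (fun h => h.2 hN)
        simp_rw [this]
        rw [sum_const_zero]
        positivity
      · have : ∀ ω : Fin N, (if cl s ω = c ∧
            ¬ (N : ℝ) ≤ (n + 1) ^ 8 * ((univ.filter (fun ω' => cl s ω' = c)).card : ℝ) then (1:ℝ) else 0) =
            if cl s ω = c then 1 else 0 := by
          intro ω
          by_cases h2 : cl s ω = c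
          · rw [if_pos ⟨h2, hN⟩, if_pos h2]
          · rw [if_neg (fun h => h2 h.1), if_neg h2]
        simp_rw [this]
        rw [sum_boole, le_div_iff₀ (by positivity)]
        push Not at hN
        nlinarith
    calc ((univ.filter (fun q : Cube n × Fin N => ¬ gd cl cm q.1 (cl q.1 q.2))).card : ℝ)
        ≤ (((univ.filter (fun q : Cube n × Fin N => cm ≤ cl q.1 q.2) ∪
        univ.filter (fun q : Cube n × Fin N => cl q.1 q.2 < cm ∧
          ¬ (N : ℝ) ≤ (n + 1) ^ 8 * ((univ.filter (fun ω => cl q.1 ω = cl q.1 q.2)).card : ℝ))).card : ℕ) : ℝ) := by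
          exact_mod_cast card_le_card e1
      _ ≤ ((univ.filter (fun q : Cube n × Fin N => cm ≤ cl q.1 q.2)).card : ℝ) +
        ((univ.filter (fun q : Cube n × Fin N => cl q.1 q.2 < cm ∧
          ¬ (N : ℝ) ≤ (n + 1) ^ 8 * ((univ.filter (fun ω => cl q.1 ω = cl q.1 q.2)).card : ℝ))).card : ℝ) := by
          exact_mod_cast card_union_le _ _
      _ ≤ _ := by linarith
  have h2 : ∑ c ∈ range cm, ∑ s : Cube n, (N : ℝ) / ((n : ℝ) + 1) ^ 8 =
      (cm : ℝ) * (2 ^ n * ((N : ℝ) / ((n : ℝ) + 1) ^ 8)) := by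
    rw [sum_const, sum_const, card_univ, card_range, nsmul_eq_mul, nsmul_eq_mul]
    simp only [Fintype.card_pi, Fintype.card_bool, prod_const, card_univ, Fintype.card_fin]
    push_cast
    ring
  have h3 : (cm : ℝ) ≤ C * (n + 1) := by
    have g1 : (cm : ℝ) ≤ 4 ^ cm := by
      have : (cm : ℝ) ≤ 2 ^ cm := by exact_mod_cast (Nat.lt_two_pow_self (n := cm)).le
      exact this.trans (pow_le_pow_left₀ (by norm_num) (by norm_num) _)
    have g2 : Real.log ((n : ℝ) + 2) ≤ n + 1 := by
      have := Real.log_le_sub_one_of_pos (x := (n : ℝ) + 2) (by positivity)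
      linarith
    calc (cm : ℝ) ≤ 4 ^ cm := g1
      _ ≤ C * Real.log (n + 2) := h.cmle
      _ ≤ _ := by gcongr
  have h4 : cm * (2 ^ n * (N / ((n : ℝ) + 1) ^ 8)) ≤ C * 2 ^ n * N / (n + 1) ^ 4 := by
    calc cm * (2 ^ n * (N / ((n : ℝ) + 1) ^ 8)) ≤ (C * (n + 1)) * (2 ^ n * (N / ((n : ℝ) + 1) ^ 8)) := by
          gcongr
      _ = C * 2 ^ n * N * (((n : ℝ) + 1) / ((n : ℝ) + 1) ^ 8) := by ring
      _ ≤ C * 2 ^ n * N * (1 / (n + 1) ^ 4) := by
          refine mul_le_mul_of_nonneg_left ?_ (by positivity)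
          rw [div_le_div_iff₀ (by positivity) (by positivity)]
          calc ((n : ℝ) + 1) * ((n : ℝ) + 1) ^ 4 = ((n : ℝ) + 1) ^ 5 := by ring
            _ ≤ ((n : ℝ) + 1) ^ 8 := pow_le_pow_right₀ hn1 (by norm_num)
            _ = 1 * ((n : ℝ) + 1) ^ 8 := by ring
      _ = _ := by ring
  rw [h2] at h1
  calc _ ≤ C * 2 ^ n * N / (n + 1) ^ 4 + C * 2 ^ n * N / (n + 1) ^ 4 :=
        h1.trans (add_le_add h.bad h4)
    _ = _ := by ring

/-- `mean` is close to the indicator of `A`. -/
theorem mean_close (hC : 1 ≤ C) (h : Sys C n A N T cl cm) (hA : A.card = 2 ^ n) :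
    ∑ z, |mean T cl cm z - if z ∈ A then 1 else 0| ≤ 3 * C * 2 ^ n / (n + 1) ^ 4 := by
  classical
  have hn1 : (1 : ℝ) ≤ (n : ℝ) + 1 := by
    have : (0 : ℝ) ≤ n := by positivity
    linarith
  have hNpos : (0 : ℝ) < N := by exact_mod_cast h.posN
  have h1 : ∀ z, |mean T cl cm z - if z ∈ A then 1 else 0| ≤
      (if z ∈ A then (1 : ℝ) / (n + 1) ^ 10 else 0) +
      ((univ.filter (fun q : Cube n × Fin N => ¬ gd cl cm q.1 (cl q.1 q.2) ∧ T q.1 q.2 = z)).card : ℝ) / N := by
    intro z
    have e1 : ((univ.filter (fun q : Cube n × Fin N => T q.1 q.2 = z)).card : ℝ) =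
        ((univ.filter (fun q : Cube n × Fin N => gd cl cm q.1 (cl q.1 q.2) ∧ T q.1 q.2 = z)).card : ℝ) +
        ((univ.filter (fun q : Cube n × Fin N => ¬ gd cl cm q.1 (cl q.1 q.2) ∧ T q.1 q.2 = z)).card : ℝ) := by
      have := card_filter_add_card_filter_not (s := univ.filter (fun q : Cube n × Fin N => T q.1 q.2 = z))
        (fun q => gd cl cm q.1 (cl q.1 q.2))
      rw [← Nat.cast_add, ← this, filter_filter, filter_filter]
      congr 2 <;> (congr 1; ext q; simp only [mem_filter, mem_univ, true_and]; tauto)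
    by_cases hz : z ∈ A
    · rw [if_pos hz, if_pos hz]
      have e2 := h.mass z hz
      have e3 : mean T cl cm z - 1 = (((univ.filter (fun q : Cube n × Fin N => T q.1 q.2 = z)).card : ℝ) - N) / N
          - ((univ.filter (fun q : Cube n × Fin N => ¬ gd cl cm q.1 (cl q.1 q.2) ∧
            T q.1 q.2 = z)).card : ℝ) / N := by
        rw [e1]
        unfold mean
        field_simp
        ring
      rw [e3]
      refine (abs_sub _ _).trans (add_le_add ?_ (le_of_eq (abs_of_nonneg (by positivity))))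
      rw [abs_div, abs_of_pos hNpos, div_le_iff₀ hNpos]
      calc _ ≤ (N : ℝ) / (n + 1) ^ 10 := e2
        _ = _ := by ring
    · rw [if_neg hz, if_neg hz, zero_add, sub_zero]
      have e2 : ∀ q : Cube n × Fin N, T q.1 q.2 ≠ z := by
        rintro q rfl; exact hz (h.mem _ _)
      have e3 : mean T cl cm z = 0 := by
        unfold mean
        have : univ.filter (fun q : Cube n × Fin N => gd cl cm q.1 (cl q.1 q.2) ∧ T q.1 q.2 = z) = ∅ := by
          rw [filter_eq_empty_iff]
          rintro q _ ⟨_, hq⟩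
          exact e2 q hq
        rw [this]; simp
      rw [e3, abs_zero]
      positivity
  refine (sum_le_sum fun z _ => h1 z).trans ?_
  rw [sum_add_distrib]
  have h2 : ∑ z : Cube (n + 1), (if z ∈ A then (1 : ℝ) / ((n : ℝ) + 1) ^ 10 else 0) =
      (2 : ℝ) ^ n / ((n : ℝ) + 1) ^ 10 := by
    rw [← sum_filter, sum_const, nsmul_eq_mul]
    simp only [filter_mem_eq_inter, univ_inter]
    rw [hA]
    push_cast
    ring
  have h3 : ∑ z : Cube (n + 1), ((univ.filter (fun q : Cube n × Fin N =>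
      ¬ gd cl cm q.1 (cl q.1 q.2) ∧ T q.1 q.2 = z)).card : ℝ) / N =
      ((univ.filter (fun q : Cube n × Fin N => ¬ gd cl cm q.1 (cl q.1 q.2))).card : ℝ) / N := by
    rw [← sum_div, ← Nat.cast_sum]
    congr 2
    rw [card_eq_sum_card_fiberwise (t := (univ : Finset (Cube (n + 1)))) (f := fun q => T q.1 q.2)
      (fun _ _ => mem_coe.2 (mem_univ _))]
    refine sum_congr rfl fun z _ => ?_
    rw [filter_filter]
  rw [h2, h3]
  have h4 := notgd_le hC h
  have h5 : ((univ.filter (fun q : Cube n × Fin N => ¬ gd cl cm q.1 (cl q.1 q.2))).card : ℝ) / N ≤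
      2 * C * 2 ^ n / (n + 1) ^ 4 := by
    rw [div_le_iff₀ hNpos]
    refine h4.trans (le_of_eq ?_)
    ring
  have h6 : (2 : ℝ) ^ n / (n + 1) ^ 10 ≤ C * 2 ^ n / (n + 1) ^ 4 := by
    calc (2 : ℝ) ^ n / (n + 1) ^ 10 ≤ 2 ^ n / (n + 1) ^ 4 := by
          refine div_le_div_of_nonneg_left (by positivity) (by positivity) ?_
          exact pow_le_pow_right₀ hn1 (by norm_num)
      _ ≤ C * 2 ^ n / (n + 1) ^ 4 := by
          gcongr
          have : (0:ℝ) < 2 ^ n := by positivity
          nlinarith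
  calc _ ≤ C * 2 ^ n / ((n : ℝ) + 1) ^ 4 + 2 * C * 2 ^ n / (n + 1) ^ 4 := add_le_add h6 h5
    _ = _ := by ring

/-- Expected number of bad points. -/
theorem bad_sum (hMe : S_MEAN) (hC : 1 ≤ C) (h : Sys C n A N T cl cm) (L : Cube n → Cube n)
    (hL : Function.Bijective L) (B : ℕ → Finset (Fin n)) (π : Equiv.Perm (Fin n)) : open Classical in
    ∑ R : Rnd n N cm, ((univ.filter (fun x => ¬ good cl L B π R x)).card : ℝ) ≤
      (Fintype.card (Rnd n N cm) : ℝ) * (2 * C * 2 ^ n / (n + 1) ^ 4) := by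
  classical
  have hNpos : (0 : ℝ) < N := by exact_mod_cast h.posN
  have h1 : ∀ x, ((univ.filter (fun R : Rnd n N cm => ¬ good cl L B π R x)).card : ℝ) * N =
      (Fintype.card (Rnd n N cm) : ℝ) *
        ((univ.filter (fun ω : Fin N => ¬ gd cl cm (pos L π x) (cl (pos L π x) ω))).card : ℝ) := by
    intro x
    have a1 : ((univ.filter (fun R : Rnd n N cm => good cl L B π R x)).card : ℝ) * N =
      (Fintype.card (Rnd n N cm) : ℝ) *
        ((univ.filter (fun ω : Fin N => gd cl cm (pos L π x) (cl (pos L π x) ω))).card : ℝ) := by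
      have b1 : ((univ.filter (fun R : Rnd n N cm => good cl L B π R x)).card : ℝ) =
          ∑ z : Cube (n + 1), ((univ.filter (fun R : Rnd n N cm => good cl L B π R x ∧
            FF T cl L B π R x = z)).card : ℝ) := by
        rw [← Nat.cast_sum]
        congr 1
        rw [card_eq_sum_card_fiberwise (t := (univ : Finset (Cube (n + 1))))
          (f := fun R => FF T cl L B π R x) (fun _ _ => mem_coe.2 (mem_univ _))]
        refine sum_congr rfl fun z _ => ?_
        rw [filter_filter]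
      have b2 : ((univ.filter (fun ω : Fin N => gd cl cm (pos L π x) (cl (pos L π x) ω))).card : ℝ) =
          ∑ z : Cube (n + 1), ((univ.filter (fun ω : Fin N =>
            gd cl cm (pos L π x) (cl (pos L π x) ω) ∧ T (pos L π x) ω = z)).card : ℝ) := by
        rw [← Nat.cast_sum]
        congr 1
        rw [card_eq_sum_card_fiberwise (t := (univ : Finset (Cube (n + 1))))
          (f := fun ω => T (pos L π x) ω) (fun _ _ => mem_coe.2 (mem_univ _))]
        refine sum_congr rfl fun z _ => ?_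
        rw [filter_filter]
      rw [b1, b2, sum_mul, mul_sum]
      refine sum_congr rfl fun z _ => ?_
      exact hMe n N cm T cl L B π h.posN x z
    have a2 := card_filter_add_card_filter_not (s := (univ : Finset (Rnd n N cm)))
      (fun R => good cl L B π R x)
    have a3 := card_filter_add_card_filter_not (s := (univ : Finset (Fin N)))
      (fun ω => gd cl cm (pos L π x) (cl (pos L π x) ω))
    rw [card_univ] at a2 a3
    have a2' : ((univ.filter (fun R : Rnd n N cm => good cl L B π R x)).card : ℝ) +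
      ((univ.filter (fun R : Rnd n N cm => ¬ good cl L B π R x)).card : ℝ) =
      (Fintype.card (Rnd n N cm) : ℝ) := by exact_mod_cast a2
    have a3' : ((univ.filter (fun ω : Fin N => gd cl cm (pos L π x) (cl (pos L π x) ω))).card : ℝ) +
      ((univ.filter (fun ω : Fin N => ¬ gd cl cm (pos L π x) (cl (pos L π x) ω))).card : ℝ) =
      (N : ℝ) := by
        have : (Fintype.card (Fin N) : ℝ) = N := by simp
        rw [← this]; exact_mod_cast a3
    have a4 : ((univ.filter (fun R : Rnd n N cm => ¬ good cl L B π R x)).card : ℝ) =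
      (Fintype.card (Rnd n N cm) : ℝ) - ((univ.filter (fun R : Rnd n N cm => good cl L B π R x)).card : ℝ) := by
      linarith
    have a5 : ((univ.filter (fun ω : Fin N => ¬ gd cl cm (pos L π x) (cl (pos L π x) ω))).card : ℝ) =
      (N : ℝ) - ((univ.filter (fun ω : Fin N => gd cl cm (pos L π x) (cl (pos L π x) ω))).card : ℝ) := by
      linarith
    rw [a4, a5, sub_mul, a1]
    ring
  have h2 : ∑ R : Rnd n N cm, ((univ.filter (fun x => ¬ good cl L B π R x)).card : ℝ) =
      ∑ x, ((univ.filter (fun R : Rnd n N cm => ¬ good cl L B π R x)).card : ℝ) := by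
    simp_rw [← sum_boole]
    exact sum_comm
  rw [h2]
  have h3 : (∑ x, ((univ.filter (fun R : Rnd n N cm => ¬ good cl L B π R x)).card : ℝ)) * N =
      (Fintype.card (Rnd n N cm) : ℝ) *
        ((univ.filter (fun q : Cube n × Fin N => ¬ gd cl cm q.1 (cl q.1 q.2))).card : ℝ) := by
    rw [sum_mul]
    simp_rw [h1]
    rw [← mul_sum]
    congr 1
    rw [Function.Bijective.sum_comp (pos_bij L π hL) (fun s =>
        ((univ.filter (fun ω : Fin N => ¬ gd cl cm s (cl s ω))).card : ℝ))]
    simp_rw [← sum_boole]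
    rw [Fintype.sum_prod_type]
  have h4 := notgd_le hC h
  have h5 : (∑ x, ((univ.filter (fun R : Rnd n N cm => ¬ good cl L B π R x)).card : ℝ)) * N ≤
      ((Fintype.card (Rnd n N cm) : ℝ) * (2 * C * 2 ^ n / (n + 1) ^ 4)) * N := by
    rw [h3]
    calc _ ≤ (Fintype.card (Rnd n N cm) : ℝ) * (2 * C * 2 ^ n * N / (n + 1) ^ 4) :=
          mul_le_mul_of_nonneg_left h4 (by positivity)
      _ = _ := by ring
  exact le_of_mul_le_mul_right h5 hNpos

end

end Pool.Agent.K1H64.ST
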