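import Pool.Agent.K1H64.ST.Defs

/-! The smoothing kernel. -/

set_option autoImplicit false

noncomputable section

namespace Pool.Agent.K1H64.ST

open Finset

/-- Parity vector of a tuple. -/
def par {d ρ : ℕ} (t : Fin ρ → Fin d) : Cube d := fun i => decide (Odd (univ.filter (fun a => t a = i)).card)

theorem xorV_comm {d : ℕ} (x y : Cube d) : xorV x y = xorV y x := by
  funext i; simp [xorV, Bool.xor_comm]

theorem xorV_assoc {d : ℕ} (x y z : Cube d) : xorV (xorV x y) z = xorV x (xorV y z) := by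
  funext i; simp [xorV]

theorem xorV_self {d : ℕ} (x : Cube d) : xorV x x = fun _ => false := by
  funext i; simp [xorV]

theorem xorV_cancel {d : ℕ} (x y : Cube d) : xorV x (xorV x y) = y := by
  funext i; simp [xorV]

theorem xorV_eq_iff {d : ℕ} (x y z : Cube d) : xorV x y = z ↔ y = xorV x z := by
  constructor
  · rintro rfl; rw [xorV_cancel]
  · rintro rfl; rw [xorV_cancel]

theorem PK_eq {d ρ : ℕ} (z y : Cube d) :
    PK ρ z y = ((univ.filter (fun t : Fin ρ → Fin d => xorV z (par t) = y)).card : ℝ) / (d : ℝ) ^ ρ := rfl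

theorem PK_nonneg {d ρ : ℕ} (z y : Cube d) : 0 ≤ PK ρ z y := by
  rw [PK_eq]; positivity

theorem PK_symm {d ρ : ℕ} (z y : Cube d) : PK ρ z y = PK ρ y z := by
  rw [PK_eq, PK_eq]
  congr 3
  ext t
  simp only [mem_filter, mem_univ, true_and]
  constructor
  · rintro rfl
    rw [xorV_comm z, xorV_comm, xorV_cancel]
  · rintro rfl
    rw [xorV_comm y, xorV_comm, xorV_cancel]

theorem PK_sum {d ρ : ℕ} (hd : 0 < d) (z : Cube d) : ∑ y, PK ρ z y = 1 := by
  simp_rw [PK_eq]
  rw [← sum_div]
  have h1 : ∑ y : Cube d, ((univ.filter (fun t : Fin ρ → Fin d => xorV z (par t) = y)).card : ℝ) =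
      (d : ℝ) ^ ρ := by
    have := card_eq_sum_card_fiberwise (s := (univ : Finset (Fin ρ → Fin d)))
      (t := (univ : Finset (Cube d))) (f := fun t => xorV z (par t)) (fun _ _ => mem_coe.2 (mem_univ _))
    rw [← Nat.cast_sum, ← this]
    simp
  rw [h1, div_self]
  positivity

/-- The square of the kernel. -/
def K2 (ρ : ℕ) {d : ℕ} (z w : Cube d) : ℝ := ∑ y, PK ρ z y * PK ρ w y

theorem K2_nonneg {d ρ : ℕ} (z w : Cube d) : 0 ≤ K2 ρ z w :=
  sum_nonneg fun _ _ => mul_nonneg (PK_nonneg _ _) (PK_nonneg _ _)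

theorem K2_symm {d ρ : ℕ} (z w : Cube d) : K2 ρ z w = K2 ρ w z := by
  unfold K2; refine sum_congr rfl fun _ _ => mul_comm _ _

theorem K2_sum {d ρ : ℕ} (hd : 0 < d) (z : Cube d) : ∑ w, K2 ρ z w = 1 := by
  unfold K2
  rw [sum_comm]
  have : ∀ y, ∑ w, PK ρ z y * PK ρ w y = PK ρ z y := by
    intro y
    rw [← mul_sum]
    have : ∑ w, PK ρ w y = 1 := by
      rw [← PK_sum (ρ := ρ) hd y]
      exact sum_congr rfl fun w _ => PK_symm _ _
    rw [this, mul_one]
  simp_rw [this]
  exact PK_sum hd z

theorem par_append {d ρ : ℕ} (t t' : Fin ρ → Fin d) : par (Fin.append t t') = xorV (par t) (par t') := by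
  funext i
  unfold par xorV
  have h : (univ.filter (fun a => Fin.append t t' a = i)).card =
      (univ.filter (fun a => t a = i)).card + (univ.filter (fun a => t' a = i)).card := by
    rw [card_filter, card_filter, card_filter, Fin.sum_univ_add]
    simp only [Fin.append_left, Fin.append_right]
  simp only [h]
  by_cases h1 : Odd (univ.filter (fun a => t a = i)).card <;>
    by_cases h2 : Odd (univ.filter (fun a => t' a = i)).card <;>
    simp [Nat.odd_add, h1, h2, Nat.not_odd_iff_even.1, Nat.not_even_iff_odd]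

theorem K2_eq {d ρ : ℕ} (z w : Cube d) :
    K2 ρ z w = ((univ.filter (fun t : Fin (ρ + ρ) → Fin d => par t = xorV z w)).card : ℝ) /
      ((d : ℝ) ^ ρ * (d : ℝ) ^ ρ) := by
  unfold K2
  simp_rw [PK_eq, div_mul_div_comm]
  rw [← sum_div]
  congr 1
  have h1 : ∀ y : Cube d,
      ((univ.filter (fun t : Fin ρ → Fin d => xorV z (par t) = y)).card : ℝ) *
      ((univ.filter (fun t : Fin ρ → Fin d => xorV w (par t) = y)).card : ℝ) =
      ((univ.filter (fun q : (Fin ρ → Fin d) × (Fin ρ → Fin d) =>
        xorV z (par q.1) = y ∧ xorV w (par q.2) = y)).card : ℝ) := by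
    intro y
    rw [← Nat.cast_mul, ← card_product]
    congr 2
    ext q
    simp
  simp_rw [h1]
  have h2 := card_eq_sum_card_fiberwise
    (s := (univ.filter (fun q : (Fin ρ → Fin d) × (Fin ρ → Fin d) =>
        xorV z (par q.1) = xorV w (par q.2))))
      (t := (univ : Finset (Cube d))) (f := fun q => xorV z (par q.1)) (fun _ _ => mem_coe.2 (mem_univ _))
  rw [← Nat.cast_sum]
  have h3 : ∑ y : Cube d, (univ.filter (fun q : (Fin ρ → Fin d) × (Fin ρ → Fin d) =>
        xorV z (par q.1) = y ∧ xorV w (par q.2) = y)).card =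
      (univ.filter (fun q : (Fin ρ → Fin d) × (Fin ρ → Fin d) =>
        xorV z (par q.1) = xorV w (par q.2))).card := by
    rw [h2]
    refine sum_congr rfl fun y _ => ?_
    congr 1
    ext q
    simp only [mem_filter, mem_univ, true_and]
    constructor
    · rintro ⟨rfl, h⟩; exact ⟨h.symm, rfl⟩
    · rintro ⟨h, rfl⟩; exact ⟨rfl, h.symm⟩
  rw [h3]
  congr 1
  refine card_bij' (fun q _ => Fin.append q.1 q.2)
    (fun t _ => (fun a => t (Fin.castAdd ρ a), fun a => t (Fin.natAdd ρ a))) ?_ ?_ ?_ ?_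
  · intro q hq
    simp only [mem_filter, mem_univ, true_and] at hq ⊢
    rw [par_append]
    have := congrArg (xorV z) hq
    rw [xorV_cancel] at this
    rw [this, ← xorV_assoc, xorV_comm (xorV (xorV z w) _), xorV_comm (xorV z w), ← xorV_assoc,
      xorV_self]
    funext i; simp [xorV]
  · intro t ht
    simp only [mem_filter, mem_univ, true_and] at ht ⊢
    have h4 : Fin.append (fun a => t (Fin.castAdd ρ a)) (fun a => t (Fin.natAdd ρ a)) = t := by
      exact Fin.append_castAdd_natAdd
    have h5 := par_append (fun a => t (Fin.castAdd ρ a)) (fun a => t (Fin.natAdd ρ a))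
    rw [h4, ht] at h5
    have h6 := congrArg (xorV w) h5
    rw [xorV_comm z w, xorV_cancel] at h6
    rw [h6]
    funext i
    simp only [xorV]
    cases w i <;> cases par (fun a => t (Fin.castAdd ρ a)) i <;>
      cases par (fun a => t (Fin.natAdd ρ a)) i <;> rfl
  · intro q _
    refine Prod.ext ?_ ?_
    · funext a; exact Fin.append_left _ _ _
    · funext a; exact Fin.append_right _ _ _
  · intro t _
    exact Fin.append_castAdd_natAdd

theorem K2_le (hT : S_TUP) {d ρ : ℕ} (hd : 0 < d) (z w : Cube d) :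
    K2 ρ z w ≤ ((ρ + ρ).factorial : ℝ) / (Real.sqrt d) ^ (ρ + ρ + hammingDist z w) := by
  have h := hT (Fin d) (ρ + ρ) (univ.filter (fun i => z i ≠ w i))
  rw [K2_eq]
  have h2 : (univ.filter (fun i => z i ≠ w i)).card = hammingDist z w := rfl
  replace h : ((univ.filter (fun t : Fin (ρ + ρ) → Fin d => par t = xorV z w)).card : ℝ) *
      (Real.sqrt (Fintype.card (Fin d))) ^ (univ.filter (fun i => z i ≠ w i)).card ≤
      ((ρ + ρ).factorial : ℝ) * (Real.sqrt (Fintype.card (Fin d))) ^ (ρ + ρ) := by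
    refine le_trans ?_ h
    gcongr with t _
    intro ht r
    simp only [mem_filter, mem_univ, true_and] at ht ⊢
    have := congrFun ht r
    unfold par xorV at this
    rw [← decide_eq_true_iff (p := Odd _), this]
    cases z r <;> cases w r <;> simp
  rw [h2, Fintype.card_fin] at h
  have hs : 0 < Real.sqrt d := Real.sqrt_pos.2 (by exact_mod_cast hd)
  rw [div_le_div_iff₀ (by positivity) (by positivity)]
  have h3 : (d : ℝ) ^ ρ * (d : ℝ) ^ ρ = (Real.sqrt d) ^ (ρ + ρ) * (Real.sqrt d) ^ (ρ + ρ) := by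
    rw [← pow_add, ← mul_pow, Real.mul_self_sqrt (by positivity)]
  rw [h3, pow_add (Real.sqrt d) (ρ + ρ) (hammingDist z w)]
  calc _ = (((univ.filter (fun t : Fin (ρ + ρ) → Fin d => par t = xorV z w)).card : ℝ) *
        (Real.sqrt d) ^ (hammingDist z w)) * (Real.sqrt d) ^ (ρ + ρ) := by ring
    _ ≤ (((ρ + ρ).factorial : ℝ) * (Real.sqrt d) ^ (ρ + ρ)) * (Real.sqrt d) ^ (ρ + ρ) := by
        gcongr
    _ = _ := by ring

theorem K2_zero {d ρ : ℕ} (z w : Cube d) (h : 2 * ρ < hammingDist z w) : K2 ρ z w = 0 := by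
  rw [K2_eq]
  have : (univ.filter (fun t : Fin (ρ + ρ) → Fin d => par t = xorV z w)) = ∅ := by
    rw [filter_eq_empty_iff]
    intro t _ ht
    have h1 : (univ.filter (fun i => z i ≠ w i)) ⊆ univ.image t := by
      intro i hi
      have h2 := congrFun ht i
      simp only [mem_filter, mem_univ, true_and] at hi
      have h3 : xorV z w i = true := by
        unfold xorV
        cases hz : z i <;> cases hw : w i <;> simp_all
      rw [h3] at h2
      unfold par at h2
      have h4 := of_decide_eq_true h2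
      have h5 : (univ.filter (fun a => t a = i)).Nonempty := by
        rw [← card_pos]; exact h4.pos
      obtain ⟨a, ha⟩ := h5
      simp only [mem_filter, mem_univ, true_and] at ha
      rw [mem_image]
      exact ⟨a, mem_univ _, ha⟩
    have h6 := card_le_card h1
    have h7 : (univ.image t).card ≤ ρ + ρ := by
      refine card_image_le.trans ?_
      simp
    have h8 : (univ.filter (fun i => z i ≠ w i)).card = hammingDist z w := rfl
    omega
  rw [this]
  simp

theorem K2_le_one {d ρ : ℕ} (hd : 0 < d) (z w : Cube d) : K2 ρ z w ≤ 1 := by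
  rw [← K2_sum (ρ := ρ) hd z]
  exact single_le_sum (f := fun w => K2 ρ z w) (fun _ _ => K2_nonneg _ _) (mem_univ w)

end Pool.Agent.K1H64.ST
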