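import Pool.Agent.K1H64.ST.Coll
import Pool.Agent.K1H64.ST.Defs2

/-! Second moments, abstract form. -/

set_option autoImplicit false

noncomputable section

namespace Pool.Agent.K1H64.ST

open Finset

theorem second_moment {Rn X Z Y : Type*} [Fintype Rn] [Fintype X] [Fintype Z] [Fintype Y]
    (hR : 0 < Fintype.card Rn)
    (ind : Rn → X → Z → ℝ) (h0 : ∀ R x z, 0 ≤ ind R x z) (mean : Z → ℝ)
    (hm : ∀ z, ∑ R, ∑ x, ind R x z = (Fintype.card Rn : ℝ) * mean z)
    (P : Z → Y → ℝ) (hP : ∀ z y, 0 ≤ P z y) (rel : X → X → Prop) [∀ x y, Decidable (rel x y)]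
    (hind : ∀ x y, ¬ rel x y → ∀ z w, (∑ R, ind R x z * ind R y w) * (Fintype.card Rn : ℝ) =
      (∑ R, ind R x z) * (∑ R, ind R y w)) :
    ∑ R, ∑ y, (∑ z, ((∑ x, ind R x z) - mean z) * P z y) ^ 2 ≤
      ∑ x, ∑ x', if rel x x' then
        ∑ z, ∑ w, (∑ y, P z y * P w y) * ∑ R, ind R x z * ind R x' w else 0 := by
  set r : ℝ := (Fintype.card Rn : ℝ) with hr
  have hr0 : 0 < r := by rw [hr]; exact_mod_cast hR
  set Q : Z → Z → ℝ := fun z w => ∑ y, P z y * P w y with hQ
  have hQ0 : ∀ z w, 0 ≤ Q z w := fun z w => sum_nonneg fun y _ => mul_nonneg (hP _ _) (hP _ _)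
  -- expand the square
  have e1 : ∀ R, ∑ y, (∑ z, ((∑ x, ind R x z) - mean z) * P z y) ^ 2 =
      ∑ z, ∑ w, Q z w * (((∑ x, ind R x z) - mean z) * ((∑ x, ind R x w) - mean w)) := by
    intro R
    have : ∀ y, (∑ z, ((∑ x, ind R x z) - mean z) * P z y) ^ 2 =
        ∑ z, ∑ w, (P z y * P w y) * (((∑ x, ind R x z) - mean z) * ((∑ x, ind R x w) - mean w)) := by
      intro y
      rw [sq, sum_mul_sum]
      refine sum_congr rfl fun z _ => sum_congr rfl fun w _ => ?_
      ring
    simp_rw [this]
    rw [sum_comm]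
    refine sum_congr rfl fun z _ => ?_
    rw [sum_comm]
    refine sum_congr rfl fun w _ => ?_
    rw [hQ, sum_mul]
  simp_rw [e1]
  have e2 : ∑ R, ∑ z, ∑ w, Q z w * (((∑ x, ind R x z) - mean z) * ((∑ x, ind R x w) - mean w)) =
      ∑ z, ∑ w, Q z w * ((∑ R, (∑ x, ind R x z) * (∑ x, ind R x w)) - r * (mean z * mean w)) := by
    rw [sum_comm]
    refine sum_congr rfl fun z _ => ?_
    rw [sum_comm]
    refine sum_congr rfl fun w _ => ?_
    rw [← mul_sum]
    congr 1
    have : ∀ R, ((∑ x, ind R x z) - mean z) * ((∑ x, ind R x w) - mean w) =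
        (∑ x, ind R x z) * (∑ x, ind R x w) - mean w * (∑ x, ind R x z) - mean z * (∑ x, ind R x w)
          + mean z * mean w := fun R => by ring
    simp_rw [this]
    rw [sum_add_distrib, sum_sub_distrib, sum_sub_distrib, ← mul_sum, ← mul_sum, hm, hm, sum_const,
      card_univ, nsmul_eq_mul, ← hr]
    ring
  rw [e2]
  have e3 : ∀ z w, (∑ R, (∑ x, ind R x z) * (∑ x, ind R x w)) - r * (mean z * mean w) ≤
      ∑ x, ∑ x', if rel x x' then ∑ R, ind R x z * ind R x' w else 0 := by
    intro z w
    have a1 : (∑ R, (∑ x, ind R x z) * (∑ x, ind R x w)) = ∑ x, ∑ x', ∑ R, ind R x z * ind R x' w := by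
      simp_rw [sum_mul_sum]
      rw [sum_comm]
      refine sum_congr rfl fun x _ => ?_
      rw [sum_comm]
    have a2 : r * (mean z * mean w) = ∑ x, ∑ x', (∑ R, ind R x z) * (∑ R, ind R x' w) / r := by
      have b1 : ∑ x, ∑ R, ind R x z = r * mean z := by rw [← hm, sum_comm]
      have b2 : ∑ x, ∑ R, ind R x w = r * mean w := by rw [← hm, sum_comm]
      have : ∑ x, ∑ x', (∑ R, ind R x z) * (∑ R, ind R x' w) / r =
          (∑ x, ∑ R, ind R x z) * (∑ x, ∑ R, ind R x w) / r := by
        rw [sum_mul_sum, sum_div]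
        refine sum_congr rfl fun x _ => ?_
        rw [sum_div]
      rw [this, b1, b2]
      field_simp
    rw [a1, a2, ← sum_sub_distrib]
    refine sum_le_sum fun x _ => ?_
    rw [← sum_sub_distrib]
    refine sum_le_sum fun x' _ => ?_
    split_ifs with h
    · have : 0 ≤ (∑ R, ind R x z) * (∑ R, ind R x' w) / r := by
        have h1 := sum_nonneg (s := univ) fun (R : Rn) _ => h0 R x z
        have h2 := sum_nonneg (s := univ) fun (R : Rn) _ => h0 R x' w
        positivity
      linarith
    · rw [← hind x x' h z w, mul_div_assoc, div_self hr0.ne', mul_one, sub_self]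
  calc ∑ z, ∑ w, Q z w * ((∑ R, (∑ x, ind R x z) * (∑ x, ind R x w)) - r * (mean z * mean w))
      ≤ ∑ z, ∑ w, Q z w * (∑ x, ∑ x', if rel x x' then ∑ R, ind R x z * ind R x' w else 0) :=
        sum_le_sum fun z _ => sum_le_sum fun w _ => mul_le_mul_of_nonneg_left (e3 z w) (hQ0 z w)
    _ = ∑ z, ∑ w, ∑ x, ∑ x', (if rel x x' then Q z w * ∑ R, ind R x z * ind R x' w else 0) := by
        refine sum_congr rfl fun z _ => sum_congr rfl fun w _ => ?_
        rw [mul_sum]
        refine sum_congr rfl fun x _ => ?_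
        rw [mul_sum]
        refine sum_congr rfl fun x' _ => ?_
        rw [mul_ite, mul_zero]
    _ = ∑ x, ∑ x', ∑ z, ∑ w, (if rel x x' then Q z w * ∑ R, ind R x z * ind R x' w else 0) := by
        have s1 : ∀ z, ∑ w, ∑ x, ∑ x', (if rel x x' then Q z w * ∑ R, ind R x z * ind R x' w else 0)
            = ∑ x, ∑ x', ∑ w, (if rel x x' then Q z w * ∑ R, ind R x z * ind R x' w else 0) := by
          intro z
          rw [sum_comm]
          refine sum_congr rfl fun x _ => ?_
          rw [sum_comm]
        simp_rw [s1]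
        rw [sum_comm]
        refine sum_congr rfl fun x _ => ?_
        rw [sum_comm]
    _ = _ := by
        refine sum_congr rfl fun x _ => sum_congr rfl fun x' _ => ?_
        split_ifs with h
        · rfl
        · simp

/-- Sum over pairs with the same label. -/
theorem pair_sum {n : ℕ} (L : Cube n → Cube n) (hL : Function.Bijective L)
    (hlin : ∀ x y, L (xorV x y) = xorV (L x) (L y)) (B : Finset (Fin n)) (π : Equiv.Perm (Fin n))
    (f : Cube n → Cube n → ℝ) (hf : ∀ s t, 0 ≤ f s t) :
    ∑ x, ∑ y, (if msk B x = msk B y then f (pos L π x) (pos L π y) else 0) ≤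
      ∑ s, f s s + ∑ E ∈ code L B, ∑ s, f s (flipV (pb π E) s) := by
  classical
  have hpos : Function.Bijective (pos L π) := by
    have : pos L π = (fun g : Cube n => fun i => g (π i)) ∘ L := rfl
    rw [this]
    refine Function.Bijective.comp ?_ hL
    exact (Equiv.arrowCongr π (Equiv.refl Bool)).symm.bijective
  have h1 : ∀ x y, msk B x = msk B y → x ≠ y → ones (L (xorV x y)) ∈ code L B := by
    intro x y hm hne
    unfold code
    rw [mem_image]
    refine ⟨xorV x y, ?_, rfl⟩
    rw [mem_filter]
    refine ⟨mem_univ _, fun i hi => ?_, fun h => hne ?_⟩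
    · have := congrFun hm i
      simp only [msk, hi, decide_true, Bool.and_true] at this
      simp [xorV, this]
    · funext i
      have := congrFun h i
      simp only [xorV] at this
      cases hx : x i <;> cases hy : y i <;> simp_all
  have h2 : ∀ x y, pos L π y = flipV (pb π (ones (L (xorV x y)))) (pos L π x) := by
    intro x y
    funext i
    unfold flipV pos
    rw [hlin]
    have : (i ∈ pb π (ones (xorV (L x) (L y)))) ↔ (xorV (L x) (L y)) (π i) = true := by
      rw [mem_pb]; simp [ones]
    simp only [this, xorV]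
    cases (L x) (π i) <;> cases (L y) (π i) <;> rfl
  have h3 : ∀ x, ∑ y, (if msk B x = msk B y then f (pos L π x) (pos L π y) else 0) ≤
      f (pos L π x) (pos L π x) + ∑ E ∈ code L B, f (pos L π x) (flipV (pb π E) (pos L π x)) := by
    intro x
    rw [← add_sum_erase univ _ (mem_univ x), if_pos rfl]
    gcongr
    rw [← sum_filter]
    have hinj : Set.InjOn (fun y => ones (L (xorV x y)))
        (((univ.erase x).filter (fun y => msk B x = msk B y) : Finset (Cube n)) : Set (Cube n)) := by
      intro y _ y' _ h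
      have h4 : L (xorV x y) = L (xorV x y') := by
        funext i
        have := congrArg (fun E => decide (i ∈ E)) h
        simp only [ones, mem_filter, mem_univ, true_and] at this
        revert this
        cases L (xorV x y) i <;> cases L (xorV x y') i <;> simp
      have h5 := hL.1 h4
      have h6 : xorV x (xorV x y) = xorV x (xorV x y') := by rw [h5]
      rwa [xorV_cancel, xorV_cancel] at h6
    have h7 : ∑ y ∈ (univ.erase x).filter (fun y => msk B x = msk B y), f (pos L π x) (pos L π y) =
        ∑ E ∈ ((univ.erase x).filter (fun y => msk B x = msk B y)).image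
          (fun y => ones (L (xorV x y))), f (pos L π x) (flipV (pb π E) (pos L π x)) := by
      rw [sum_image hinj]
      refine sum_congr rfl fun y _ => ?_
      rw [← h2]
    rw [h7]
    refine sum_le_sum_of_subset_of_nonneg ?_ (fun E _ _ => hf _ _)
    intro E hE
    rw [mem_image] at hE
    obtain ⟨y, hy, rfl⟩ := hE
    rw [mem_filter, mem_erase] at hy
    exact h1 x y hy.2 (Ne.symm hy.1.1)
  calc _ ≤ ∑ x, (f (pos L π x) (pos L π x) +
        ∑ E ∈ code L B, f (pos L π x) (flipV (pb π E) (pos L π x))) := sum_le_sum fun x _ => h3 x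
    _ = _ := by
        rw [sum_add_distrib, sum_comm]
        congr 1
        · exact Function.Bijective.sum_comp hpos (fun s => f s s)
        · refine sum_congr rfl fun E _ => ?_
          exact Function.Bijective.sum_comp hpos (fun s => f s (flipV (pb π E) s))

/-- Averaging the code sum over permutations. -/
theorem code_avg {n : ℕ} (𝒞 : Finset (Finset (Fin n))) (f : Finset (Fin n) → ℝ) :
    ∑ π : Equiv.Perm (Fin n), ∑ E ∈ 𝒞, f (pb π E) =
      (Fintype.card (Equiv.Perm (Fin n)) : ℝ) *
        ∑ E ∈ 𝒞, (∑ F ∈ powersetCard E.card univ, f F) / (n.choose E.card : ℝ) := by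
  rw [sum_comm, mul_sum]
  refine sum_congr rfl fun E _ => ?_
  have h1 := perm_avg f E
  have h2 : (0 : ℝ) < (n.choose E.card : ℝ) := by
    have : E.card ≤ n := by simpa using card_le_univ E
    exact_mod_cast Nat.choose_pos this
  rw [mul_div_assoc', eq_div_iff h2.ne', h1]

end Pool.Agent.K1H64.ST
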