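import Pool.Agent.K1H64.ST.Var1

/-! The second moment of the random map, reduced to sums over codes. -/

set_option autoImplicit false

noncomputable section

namespace Pool.Agent.K1H64.ST

open Finset

section

variable {n N : ℕ} (ρ cm : ℕ) (T : Cube n → Fin N → Cube (n + 1)) (cl : Cube n → Fin N → ℕ)

/-- Same seeds, class `c`. -/
def Gf (c : ℕ) (s s' : Cube n) : ℝ :=
  ∑ ω : Fin N, if cl s ω = c ∧ cl s' ω = c then K2 ρ (T s ω) (T s' ω) else 0

/-- Independent seeds. -/
def Hf (s s' : Cube n) : ℝ :=
  ∑ q : Fin N × Fin N, if cl s q.1 < cm ∧ cl s' q.2 < cm then K2 ρ (T s q.1) (T s' q.2) else 0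

theorem Gf_nonneg (c : ℕ) (s s' : Cube n) : 0 ≤ Gf ρ T cl c s s' := by
  refine sum_nonneg fun ω _ => ?_
  split_ifs
  · exact K2_nonneg _ _
  · exact le_rfl

theorem Hf_nonneg (s s' : Cube n) : 0 ≤ Hf ρ cm T cl s s' := by
  refine sum_nonneg fun ω _ => ?_
  split_ifs
  · exact K2_nonneg _ _
  · exact le_rfl

end

theorem sum_card_pair {S Z : Type*} [Fintype S] [Fintype Z] [DecidableEq Z] (p : S → Prop)
    [DecidablePred p] (f g : S → Z) (K : Z → Z → ℝ) :
    ∑ z, ∑ w, K z w * ((univ.filter (fun u => p u ∧ f u = z ∧ g u = w)).card : ℝ) =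
      ∑ u, if p u then K (f u) (g u) else 0 := by
  have h1 : ∀ z w, K z w * ((univ.filter (fun u => p u ∧ f u = z ∧ g u = w)).card : ℝ) =
      ∑ u, if p u then (if f u = z then (if g u = w then K z w else 0) else 0) else 0 := by
    intro z w
    rw [← sum_boole, mul_sum]
    refine sum_congr rfl fun u _ => ?_
    by_cases h1 : p u <;> by_cases h2 : f u = z <;> by_cases h3 : g u = w <;> simp [h1, h2, h3]
  simp_rw [h1]
  have h2 : ∀ z, ∑ w, ∑ u, (if p u then (if f u = z then (if g u = w then K z w else 0) else 0) else 0) =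
      ∑ u, (if p u then (if f u = z then K z (g u) else 0) else 0) := by
    intro z
    rw [sum_comm]
    refine sum_congr rfl fun u _ => ?_
    split_ifs <;> simp
  simp_rw [h2]
  rw [sum_comm]
  refine sum_congr rfl fun u _ => ?_
  split_ifs <;> simp

section main

variable {n N cm : ℕ} (ρ : ℕ) (T : Cube n → Fin N → Cube (n + 1)) (cl : Cube n → Fin N → ℕ)
  (L : Cube n → Cube n) (B : ℕ → Finset (Fin n)) (π : Equiv.Perm (Fin n))

open Classical in
/-- The indicator. -/
def indR (R : Rnd n N cm) (x : Cube n) (z : Cube (n + 1)) : ℝ :=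
  if good cl L B π R x ∧ FF T cl L B π R x = z then 1 else 0

theorem pos_bij (hL : Function.Bijective L) : Function.Bijective (pos L π) := by
  have : pos L π = (fun g : Cube n => fun i => g (π i)) ∘ L := rfl
  rw [this]
  refine Function.Bijective.comp ?_ hL
  exact (Equiv.arrowCongr π (Equiv.refl Bool)).symm.bijective

theorem NN_eq (R : Rnd n N cm) (z : Cube (n + 1)) :
    NN T cl L B π R z = ∑ x, indR T cl L B π R x z := by
  classical
  unfold NN indR
  rw [sum_boole]

theorem sum_ind (R0 : Finset (Rnd n N cm)) (x : Cube n) (z : Cube (n + 1)) : open Classical in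
    ∑ R ∈ R0, indR T cl L B π R x z =
      ((R0.filter (fun R => good cl L B π R x ∧ FF T cl L B π R x = z)).card : ℝ) := by
  classical
  unfold indR
  rw [sum_boole]

theorem sum_ind2 (x y : Cube n) (z w : Cube (n + 1)) : open Classical in
    ∑ R : Rnd n N cm, indR T cl L B π R x z * indR T cl L B π R y w =
      ((univ.filter (fun R : Rnd n N cm => good cl L B π R x ∧ good cl L B π R y ∧
        FF T cl L B π R x = z ∧ FF T cl L B π R y = w)).card : ℝ) := by
  classical
  unfold indR
  rw [← sum_boole]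
  refine sum_congr rfl fun R _ => ?_
  by_cases h1 : good cl L B π R x <;> by_cases h2 : good cl L B π R y <;>
    by_cases h3 : FF T cl L B π R x = z <;> by_cases h4 : FF T cl L B π R y = w <;>
    simp [h1, h2, h3, h4]

theorem joint_le (hJ : S_JOINT) (hN : 0 < N) (x y : Cube n) :
    ∑ z, ∑ w, (∑ v, PK ρ z v * PK ρ w v) *
      ∑ R : Rnd n N cm, indR T cl L B π R x z * indR T cl L B π R y w ≤
    (Fintype.card (Rnd n N cm) : ℝ) *
      ((∑ c ∈ range cm, if msk (B c) x = msk (B c) y then
        Gf ρ T cl c (pos L π x) (pos L π y) / N else 0) +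
      2 * (n + 1) ^ 8 * (Hf ρ cm T cl (pos L π x) (pos L π y) / N ^ 2)) := by
  classical
  set r := (Fintype.card (Rnd n N cm) : ℝ) with hr
  have h1 : ∀ z w : Cube (n + 1), (∑ v, PK ρ z v * PK ρ w v) *
      ∑ R : Rnd n N cm, indR T cl L B π R x z * indR T cl L B π R y w ≤
      r * ((∑ c ∈ range cm, if msk (B c) x = msk (B c) y then
      (K2 ρ z w * ((univ.filter (fun ω : Fin N => (cl (pos L π x) ω = c ∧ cl (pos L π y) ω = c) ∧
        T (pos L π x) ω = z ∧ T (pos L π y) ω = w)).card : ℝ)) / N else 0) +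
      2 * (n + 1) ^ 8 * ((K2 ρ z w * ((univ.filter (fun q : Fin N × Fin N =>
        (cl (pos L π x) q.1 < cm ∧ cl (pos L π y) q.2 < cm) ∧
        T (pos L π x) q.1 = z ∧ T (pos L π y) q.2 = w)).card : ℝ)) / N ^ 2)) := by
    intro z w
    rw [sum_ind2]
    have h2 := hJ n N cm T cl L B π hN x y z w
    have h3 : (∑ v, PK ρ z v * PK ρ w v) = K2 ρ z w := rfl
    rw [h3]
    refine (mul_le_mul_of_nonneg_left h2 (K2_nonneg z w)).trans (le_of_eq ?_)
    rw [← hr]
    have h4 : (((univ.filter (fun ω : Fin N => cl (pos L π x) ω < cm ∧ T (pos L π x) ω = z)).card : ℝ) / N) *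
      (((univ.filter (fun ω : Fin N => cl (pos L π y) ω < cm ∧ T (pos L π y) ω = w)).card : ℝ) / N) =
      ((univ.filter (fun q : Fin N × Fin N =>
        (cl (pos L π x) q.1 < cm ∧ cl (pos L π y) q.2 < cm) ∧
        T (pos L π x) q.1 = z ∧ T (pos L π y) q.2 = w)).card : ℝ) / N ^ 2 := by
      rw [div_mul_div_comm, ← Nat.cast_mul, ← card_product, ← sq]
      congr 3
      ext q
      simp only [mem_product, mem_filter, mem_univ, true_and]
      tauto
    have h5 : ∀ c, (univ.filter (fun ω : Fin N => cl (pos L π x) ω = c ∧ cl (pos L π y) ω = c ∧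
        T (pos L π x) ω = z ∧ T (pos L π y) ω = w)) =
        (univ.filter (fun ω : Fin N => (cl (pos L π x) ω = c ∧ cl (pos L π y) ω = c) ∧
        T (pos L π x) ω = z ∧ T (pos L π y) ω = w)) := by
      intro c
      ext ω
      simp only [mem_filter, mem_univ, true_and]
      tauto
    simp_rw [h5]
    rw [mul_assoc (2 * ((n : ℝ) + 1) ^ 8), h4]
    rw [mul_left_comm, mul_add, mul_sum]
    congr 2
    · refine sum_congr rfl fun c _ => ?_
      rw [mul_ite, mul_zero, mul_div_assoc]
    · ring
  refine (sum_le_sum fun z _ => sum_le_sum fun w _ => h1 z w).trans (le_of_eq ?_)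
  simp_rw [← mul_sum]
  congr 1
  simp_rw [sum_add_distrib]
  congr 1
  · have : ∀ z : Cube (n + 1), ∑ w : Cube (n + 1), ∑ c ∈ range cm, (if msk (B c) x = msk (B c) y then
      (K2 ρ z w * ((univ.filter (fun ω : Fin N => (cl (pos L π x) ω = c ∧ cl (pos L π y) ω = c) ∧
        T (pos L π x) ω = z ∧ T (pos L π y) ω = w)).card : ℝ)) / N else 0) =
        ∑ c ∈ range cm, ∑ w : Cube (n + 1), (if msk (B c) x = msk (B c) y then
      (K2 ρ z w * ((univ.filter (fun ω : Fin N => (cl (pos L π x) ω = c ∧ cl (pos L π y) ω = c) ∧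
        T (pos L π x) ω = z ∧ T (pos L π y) ω = w)).card : ℝ)) / N else 0) := fun z => sum_comm
    simp_rw [this]
    rw [sum_comm]
    refine sum_congr rfl fun c _ => ?_
    split_ifs with h
    · simp_rw [← sum_div]
      congr 1
      rw [sum_card_pair (fun ω => cl (pos L π x) ω = c ∧ cl (pos L π y) ω = c)
        (fun ω => T (pos L π x) ω) (fun ω => T (pos L π y) ω) (K2 ρ)]
      rfl
    · simp
  · simp_rw [← mul_sum, ← sum_div]
    congr 2
    rw [sum_card_pair (fun q : Fin N × Fin N => cl (pos L π x) q.1 < cm ∧ cl (pos L π y) q.2 < cm)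
        (fun q => T (pos L π x) q.1) (fun q => T (pos L π y) q.2) (K2 ρ)]
    rfl

theorem var_bound (hJ : S_JOINT) (hMe : S_MEAN) (hI : S_INDEP) (hN : 0 < N)
    (hbij : Function.Bijective L) (hlin : ∀ x y, L (xorV x y) = xorV (L x) (L y))
    (hmono : ∀ c, B c ⊆ B (c + 1)) :
    ∑ R : Rnd n N cm, ∑ y : Cube (n + 1),
      (∑ z, (NN T cl L B π R z - mean T cl cm z) * PK ρ z y) ^ 2 ≤
    (Fintype.card (Rnd n N cm) : ℝ) *
      ((∑ c ∈ range cm, (∑ s, Gf ρ T cl c s s +
          ∑ E ∈ code L (B c), ∑ s, Gf ρ T cl c s (flipV (pb π E) s))) / N +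
      2 * (n + 1) ^ 8 * (∑ s, Hf ρ cm T cl s s +
          ∑ E ∈ code L (B 0), ∑ s, Hf ρ cm T cl s (flipV (pb π E) s)) / N ^ 2) := by
  classical
  have : Nonempty (Fin N) := ⟨⟨0, hN⟩⟩
  have hRc : 0 < Fintype.card (Rnd n N cm) := Fintype.card_pos
  have hB0 : ∀ c, B 0 ⊆ B c := by
    intro c
    induction c with
    | zero => exact subset_rfl
    | succ c ih => exact ih.trans (hmono c)
  have hmsk : ∀ x y c, msk (B c) x = msk (B c) y → msk (B 0) x = msk (B 0) y := by
    intro x y c h
    funext i
    unfold msk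
    by_cases hi : i ∈ B 0
    · have := congrFun h i
      simp only [msk, hB0 c hi, decide_true, Bool.and_true] at this
      rw [this]
    · simp [hi]
  have h1 := second_moment hRc (fun (R : Rnd n N cm) x z => indR T cl L B π R x z)
    (fun R x z => by unfold indR; split_ifs <;> norm_num) (mean T cl cm)
    (by
      intro z
      rw [sum_comm]
      have h2 : ∀ x, ∑ R : Rnd n N cm, indR T cl L B π R x z =
          (Fintype.card (Rnd n N cm) : ℝ) *
          (((univ.filter (fun ω : Fin N => gd cl cm (pos L π x) (cl (pos L π x) ω) ∧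
            T (pos L π x) ω = z)).card : ℝ) / N) := by
        intro x
        rw [sum_ind, mul_div_assoc', eq_div_iff (by positivity)]
        exact hMe n N cm T cl L B π hN x z
      simp_rw [h2]
      rw [← mul_sum]
      congr 1
      rw [← sum_div]
      unfold mean
      congr 1
      rw [Function.Bijective.sum_comp (pos_bij L π hbij) (fun s =>
        ((univ.filter (fun ω : Fin N => gd cl cm s (cl s ω) ∧ T s ω = z)).card : ℝ))]
      rw [← Nat.cast_sum]
      congr 1
      simp_rw [card_filter]
      rw [Fintype.sum_prod_type])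
    (fun z y => PK ρ z y) (fun z y => PK_nonneg z y) (fun x y => msk (B 0) x = msk (B 0) y)
    (by
      intro x y hxy z w
      rw [sum_ind2, sum_ind, sum_ind]
      exact hI n N cm T cl L B π hN x y (fun c h => hxy (hmsk x y c h)) z w)
  simp_rw [NN_eq]
  refine h1.trans ?_
  set r := (Fintype.card (Rnd n N cm) : ℝ) with hr
  have hr0 : 0 ≤ r := by positivity
  calc ∑ x, ∑ y, (if msk (B 0) x = msk (B 0) y then
        ∑ z, ∑ w, (∑ v, PK ρ z v * PK ρ w v) *
          ∑ R : Rnd n N cm, indR T cl L B π R x z * indR T cl L B π R y w else 0)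
      ≤ ∑ x, ∑ y, r * ((∑ c ∈ range cm, if msk (B c) x = msk (B c) y then
        Gf ρ T cl c (pos L π x) (pos L π y) / N else 0) +
      2 * (n + 1) ^ 8 * ((if msk (B 0) x = msk (B 0) y then
        Hf ρ cm T cl (pos L π x) (pos L π y) else 0) / N ^ 2)) := by
        refine sum_le_sum fun x _ => sum_le_sum fun y _ => ?_
        split_ifs with h
        · exact joint_le ρ T cl L B π hJ hN x y
        · refine mul_nonneg hr0 (add_nonneg (sum_nonneg fun c _ => ?_) (by simp))
          split_ifs
          · exact div_nonneg (Gf_nonneg _ _ _ _ _ _) (by positivity)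
          · exact le_rfl
    _ = r * (∑ c ∈ range cm, (∑ x, ∑ y, if msk (B c) x = msk (B c) y then
        Gf ρ T cl c (pos L π x) (pos L π y) else 0) / N +
      2 * (n + 1) ^ 8 * (∑ x, ∑ y, (if msk (B 0) x = msk (B 0) y then
        Hf ρ cm T cl (pos L π x) (pos L π y) else 0)) / N ^ 2) := by
        simp_rw [← mul_sum]
        congr 1
        simp_rw [sum_add_distrib]
        congr 1
        · have : ∀ x : Cube n, ∑ y : Cube n, ∑ c ∈ range cm, (if msk (B c) x = msk (B c) y then
            Gf ρ T cl c (pos L π x) (pos L π y) / N else 0) =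
            ∑ c ∈ range cm, ∑ y : Cube n, (if msk (B c) x = msk (B c) y then
            Gf ρ T cl c (pos L π x) (pos L π y) / (N : ℝ) else 0) := fun x => sum_comm
          simp_rw [this]
          rw [sum_comm]
          refine sum_congr rfl fun c _ => ?_
          rw [sum_div]
          refine sum_congr rfl fun x _ => ?_
          rw [sum_div]
          refine sum_congr rfl fun y _ => ?_
          split_ifs <;> simp
        · rw [mul_div_assoc, sum_div, mul_sum]
          refine sum_congr rfl fun x _ => ?_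
          rw [sum_div, mul_sum]
    _ ≤ _ := by
        refine mul_le_mul_of_nonneg_left ?_ hr0
        rw [sum_div]
        refine add_le_add ?_ ?_
        · refine sum_le_sum fun c _ => ?_
          refine div_le_div_of_nonneg_right ?_ (by positivity)
          exact pair_sum L hbij hlin (B c) π (Gf ρ T cl c) (Gf_nonneg ρ T cl c)
        · refine div_le_div_of_nonneg_right ?_ (by positivity)
          refine mul_le_mul_of_nonneg_left ?_ (by positivity)
          exact pair_sum L hbij hlin (B 0) π (Hf ρ cm T cl) (Hf_nonneg ρ cm T cl)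

end main

end Pool.Agent.K1H64.ST
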