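import Pool.Agent.K1H64.ST.Var2

/-! Bounds of the sums over all sets of size `k`. -/

set_option autoImplicit false

noncomputable section

namespace Pool.Agent.K1H64.ST

open Finset

theorem choose_ge (k : ℕ) : ∀ n : ℕ, k ≤ n → (n : ℝ) ^ k ≤ (n.choose k : ℝ) * (k : ℝ) ^ k := by
  induction k with
  | zero => intro n _; simp
  | succ k ih =>
    intro n hn
    obtain ⟨n, rfl⟩ : ∃ n', n = n' + 1 := ⟨n - 1, by omega⟩
    have hkn : k ≤ n := by omega
    have h1 := ih n hkn
    have h2 : ((n + 1).choose (k + 1) : ℝ) * (k + 1) = (n + 1) * (n.choose k : ℝ) := by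
      have := Nat.add_one_mul_choose_eq n k
      have h3 : ((n + 1 : ℕ) : ℝ) * (n.choose k : ℝ) = ((n + 1).choose (k + 1) : ℝ) * ((k + 1 : ℕ) : ℝ) := by
        exact_mod_cast this
      push_cast at h3
      linarith
    push_cast
    have h4 : ((n.choose k : ℝ)) * (k + 1 : ℝ) ^ k ≥ (n + 1 : ℝ) ^ k := by
      rcases Nat.eq_zero_or_pos k with rfl | hk
      · simp
      · have hk' : (0 : ℝ) < (k : ℝ) := by exact_mod_cast hk
        have h5 : (n + 1 : ℝ) ^ k * (k : ℝ) ^ k ≤ (n : ℝ) ^ k * (k + 1 : ℝ) ^ k := by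
          rw [← mul_pow, ← mul_pow]
          refine pow_le_pow_left₀ (by positivity) ?_ k
          have : (k : ℝ) ≤ n := by exact_mod_cast hkn
          nlinarith
        have h6 : (n + 1 : ℝ) ^ k * (k : ℝ) ^ k ≤ ((n.choose k : ℝ) * (k + 1 : ℝ) ^ k) * (k : ℝ) ^ k := by
          refine h5.trans ?_
          have : 0 ≤ (k + 1 : ℝ) ^ k := by positivity
          nlinarith
        exact le_of_mul_le_mul_right h6 (by positivity)
    calc (n + 1 : ℝ) ^ (k + 1) = (n + 1 : ℝ) ^ k * (n + 1) := pow_succ _ _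
      _ ≤ ((n.choose k : ℝ) * (k + 1 : ℝ) ^ k) * (n + 1) := by gcongr
      _ = ((n + 1) * (n.choose k : ℝ)) * (k + 1 : ℝ) ^ k := by ring
      _ = (((n + 1).choose (k + 1) : ℝ) * (k + 1)) * (k + 1 : ℝ) ^ k := by rw [h2]
      _ = _ := by ring

/-- `1/(k! C(n,k)) ≤ (6/(n+1))^k`. -/
theorem inv_choose_le (n k : ℕ) (hn : 1 ≤ n) (hk : k ≤ n) (β : ℝ) (hβ : 0 ≤ β) :
    β ^ k / (k.factorial : ℝ) / (n.choose k : ℝ) ≤ (6 * β / (n + 1)) ^ k := by
  have h1 := choose_ge k n hk
  have hc : (0 : ℝ) < (n.choose k : ℝ) := by exact_mod_cast Nat.choose_pos hk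
  have hf : (0 : ℝ) < (k.factorial : ℝ) := by positivity
  have h2 : (k : ℝ) ^ k / (k.factorial : ℝ) ≤ 3 ^ k := by
    have h3 := Real.pow_div_factorial_le_exp (k : ℝ) (by positivity) k
    refine h3.trans ?_
    have h4 : Real.exp (k : ℝ) = (Real.exp 1) ^ k := by
      rw [← Real.exp_nat_mul]; simp
    rw [h4]
    have := Real.exp_one_lt_d9
    gcongr
    linarith
  have h5 : (n : ℝ) ^ k ≤ 3 ^ k * ((k.factorial : ℝ) * (n.choose k : ℝ)) := by
    rw [div_le_iff₀ hf] at h2
    calc (n : ℝ) ^ k ≤ (n.choose k : ℝ) * (k : ℝ) ^ k := h1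
      _ ≤ (n.choose k : ℝ) * (3 ^ k * (k.factorial : ℝ)) := by gcongr
      _ = _ := by ring
  have hn1 : (n : ℝ) + 1 ≤ 2 * n := by
    have : (1 : ℝ) ≤ n := by exact_mod_cast hn
    linarith
  have h6 : ((n : ℝ) + 1) ^ k ≤ 6 ^ k * ((k.factorial : ℝ) * (n.choose k : ℝ)) := by
    calc ((n : ℝ) + 1) ^ k ≤ (2 * n) ^ k := by gcongr
      _ = 2 ^ k * (n : ℝ) ^ k := mul_pow _ _ _
      _ ≤ 2 ^ k * (3 ^ k * ((k.factorial : ℝ) * (n.choose k : ℝ))) := by gcongr
      _ = _ := by
        rw [← mul_assoc, ← mul_pow]; norm_num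
  rw [div_div, div_pow, mul_pow, div_le_div_iff₀ (by positivity) (by positivity)]
  calc β ^ k * ((n : ℝ) + 1) ^ k ≤ β ^ k * (6 ^ k * ((k.factorial : ℝ) * (n.choose k : ℝ))) := by
        gcongr
    _ = _ := by ring

section

variable {C : ℝ} {n N : ℕ} {A : Finset (Cube (n + 1))} {T : Cube n → Fin N → Cube (n + 1)}
  {cl : Cube n → Fin N → ℕ} {cm : ℕ} (ρ : ℕ)

theorem Gsum (hT : S_TUP) (hC : 1 ≤ C) (h : Sys C n A N T cl cm) (c : ℕ) (hc : c < cm) (k : ℕ) :
    ∑ F ∈ powersetCard k (univ : Finset (Fin n)), ∑ s, Gf ρ T cl c s (flipV F s) ≤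
    ((ρ + ρ).factorial : ℝ) / (Real.sqrt (n + 1)) ^ (ρ + ρ) *
      ((Real.sqrt (n + 1) + C * 2 ^ c * Real.sqrt (n + 1)) ^ k / (k.factorial : ℝ) * (2 ^ n * N)) := by
  have h1 := coll_sum (S := Cube n × Fin N) (ρ := ρ) hT (fun u => T u.1 u.2)
    (fun F u => T (flipV F u.1) u.2)
    (fun F u => cl u.1 u.2 = c ∧ cl (flipV F u.1) u.2 = c) (C * 2 ^ c * Real.sqrt (n + 1)) (2 ^ n * N)
    (by positivity) (by positivity)
    (by
      intro W j
      refine le_trans ?_ (h.col1 c hc W j)
      refine sum_le_sum fun E _ => ?_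
      norm_cast
      refine card_le_card ?_
      intro u hu
      simp only [mem_filter, mem_univ, true_and] at hu ⊢
      exact ⟨hu.1.1.le, hu.1.2.le, hu.2⟩) k
  refine le_trans (le_of_eq ?_) h1
  refine sum_congr rfl fun F _ => ?_
  unfold Gf
  rw [Fintype.sum_prod_type]

theorem Hsum (hT : S_TUP) (hC : 1 ≤ C) (h : Sys C n A N T cl cm) (k : ℕ) :
    ∑ F ∈ powersetCard k (univ : Finset (Fin n)), ∑ s, Hf ρ cm T cl s (flipV F s) ≤
    ((ρ + ρ).factorial : ℝ) / (Real.sqrt (n + 1)) ^ (ρ + ρ) *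
      ((Real.sqrt (n + 1) + C * 2 ^ cm * Real.sqrt (n + 1)) ^ k / (k.factorial : ℝ) *
        (2 ^ n * N ^ 2)) := by
  have h1 := coll_sum (S := Cube n × Fin N × Fin N) (ρ := ρ) hT (fun u => T u.1 u.2.1)
    (fun F u => T (flipV F u.1) u.2.2)
    (fun F u => cl u.1 u.2.1 < cm ∧ cl (flipV F u.1) u.2.2 < cm)
    (C * 2 ^ cm * Real.sqrt (n + 1)) (2 ^ n * N ^ 2)
    (by positivity) (by positivity)
    (by
      intro W j
      refine le_trans ?_ (h.col2 W j)
      refine sum_le_sum fun E _ => ?_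
      norm_cast
      refine card_le_card ?_
      intro u hu
      simp only [mem_filter, mem_univ, true_and] at hu ⊢
      exact ⟨hu.1.1, hu.1.2, hu.2⟩) k
  refine le_trans (le_of_eq ?_) h1
  refine sum_congr rfl fun F _ => ?_
  unfold Hf
  rw [Fintype.sum_prod_type]

/-- Total mass at `w`. -/
theorem mass_le (h : Sys C n A N T cl cm) (w : Cube (n + 1)) :
    ((univ.filter (fun q : Cube n × Fin N => T q.1 q.2 = w)).card : ℝ) ≤ 2 * N := by
  by_cases hw : w ∈ A
  · have h1 := h.mass w hw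
    have h2 := (abs_le.1 h1).2
    have h3 : (N : ℝ) / (n + 1) ^ 10 ≤ N := by
      refine div_le_self (by positivity) ?_
      have : (1 : ℝ) ≤ n + 1 := by
        have : (0 : ℝ) ≤ n := by positivity
        linarith
      exact one_le_pow₀ this
    linarith
  · have : univ.filter (fun q : Cube n × Fin N => T q.1 q.2 = w) = ∅ := by
      rw [filter_eq_empty_iff]
      rintro q _ rfl
      exact hw (h.mem _ _)
    rw [this]
    simp

theorem K2_sum_T (h : Sys C n A N T cl cm) (z : Cube (n + 1)) :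
    ∑ s, ∑ ω, K2 ρ z (T s ω) ≤ 2 * N := by
  have h1 : ∑ s, ∑ ω, K2 ρ z (T s ω) =
      ∑ w, K2 ρ z w * ((univ.filter (fun q : Cube n × Fin N => T q.1 q.2 = w)).card : ℝ) := by
    rw [← Fintype.sum_prod_type (f := fun q : Cube n × Fin N => K2 ρ z (T q.1 q.2))]
    simp_rw [← sum_boole, mul_sum]
    rw [sum_comm]
    refine sum_congr rfl fun q _ => ?_
    simp
  rw [h1]
  calc ∑ w, K2 ρ z w * ((univ.filter (fun q : Cube n × Fin N => T q.1 q.2 = w)).card : ℝ)
      ≤ ∑ w, K2 ρ z w * (2 * N) :=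
        sum_le_sum fun w _ => mul_le_mul_of_nonneg_left (mass_le h w) (K2_nonneg _ _)
    _ = 2 * N := by
        rw [← sum_mul, K2_sum (Nat.succ_pos n), one_mul]

theorem flip_sum {n : ℕ} (s : Cube n) (f : Cube n → ℝ) :
    ∑ F : Finset (Fin n), f (flipV F s) = ∑ t, f t := by
  refine Function.Bijective.sum_comp (e := fun F : Finset (Fin n) => flipV F s) ⟨?_, ?_⟩ f
  · intro F F' h
    ext i
    have := congrFun h i
    simp only [flipV] at this
    by_cases h1 : i ∈ F <;> by_cases h2 : i ∈ F' <;> simp_all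
  · intro t
    refine ⟨univ.filter (fun i => s i ≠ t i), ?_⟩
    funext i
    simp only [flipV, mem_filter, mem_univ, true_and]
    cases s i <;> cases t i <;> simp

theorem Hcrude (h : Sys C n A N T cl cm) :
    ∑ F : Finset (Fin n), ∑ s, Hf ρ cm T cl s (flipV F s) ≤ 2 * (2 ^ n * N ^ 2) := by
  rw [sum_comm]
  have h1 : ∀ s : Cube n, ∑ F : Finset (Fin n), Hf ρ cm T cl s (flipV F s) ≤ 2 * N ^ 2 := by
    intro s
    rw [flip_sum s (fun t => Hf ρ cm T cl s t)]
    have h2 : ∀ t, Hf ρ cm T cl s t ≤ ∑ ω : Fin N, ∑ ω' : Fin N, K2 ρ (T s ω) (T t ω') := by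
      intro t
      unfold Hf
      rw [Fintype.sum_prod_type]
      refine sum_le_sum fun ω _ => sum_le_sum fun ω' _ => ?_
      split_ifs
      · exact le_rfl
      · exact K2_nonneg _ _
    calc ∑ t, Hf ρ cm T cl s t ≤ ∑ t, ∑ ω : Fin N, ∑ ω' : Fin N, K2 ρ (T s ω) (T t ω') :=
          sum_le_sum fun t _ => h2 t
      _ = ∑ ω : Fin N, ∑ t, ∑ ω' : Fin N, K2 ρ (T s ω) (T t ω') := sum_comm
      _ ≤ ∑ ω : Fin N, 2 * (N : ℝ) := sum_le_sum fun ω _ => K2_sum_T ρ h _
      _ = 2 * N ^ 2 := by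
          rw [sum_const, card_univ, Fintype.card_fin, nsmul_eq_mul]; ring
  calc _ ≤ ∑ s : Cube n, 2 * (N : ℝ) ^ 2 := sum_le_sum fun s _ => h1 s
    _ = _ := by
      rw [sum_const, card_univ, nsmul_eq_mul]
      simp only [Fintype.card_pi, Fintype.card_bool, prod_const, card_univ, Fintype.card_fin]
      push_cast
      ring

theorem Hbig (hC : 1 ≤ C) (h : Sys C n A N T cl cm)
    (hbig : 2 * (C * 2 ^ cm * Real.sqrt (n + 1)) + 2 * ρ < ((n : ℝ) + 1) / 2) :
    ∑ F ∈ (univ : Finset (Finset (Fin n))).filter (fun F => n + 1 < 2 * F.card),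
      ∑ s, Hf ρ cm T cl s (flipV F s) ≤
      4 * C * (1 / 2) ^ (Nat.sqrt (n + 1)) * (2 ^ n * N ^ 2) := by
  classical
  set q := Real.sqrt (n + 1) with hq
  set ex : Cube n → Fin N → Prop := fun s ω => cl s ω < cm ∧
    C * 2 ^ (cl s ω) * q < (disp s (T s ω) : ℝ) with hex
  -- the pointwise bound
  have key : ∀ F : Finset (Fin n), n + 1 < 2 * F.card → ∀ s (ω ω' : Fin N),
      (if cl s ω < cm ∧ cl (flipV F s) ω' < cm then K2 ρ (T s ω) (T (flipV F s) ω') else 0) ≤
      (if ex s ω then K2 ρ (T s ω) (T (flipV F s) ω') else 0) +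
      (if ex (flipV F s) ω' then K2 ρ (T s ω) (T (flipV F s) ω') else 0) := by
    intro F hF s ω ω'
    have k0 := K2_nonneg (ρ := ρ) (T s ω) (T (flipV F s) ω')
    by_cases h1 : cl s ω < cm ∧ cl (flipV F s) ω' < cm
    · rw [if_pos h1]
      by_cases h2 : ex s ω
      · rw [if_pos h2]
        split_ifs <;> linarith
      · by_cases h3 : ex (flipV F s) ω'
        · rw [if_neg h2, if_pos h3]; linarith
        · -- contradiction with the distance
          have h4 : (disp s (T s ω) : ℝ) ≤ C * 2 ^ cm * q := by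
            have : ¬ (C * 2 ^ (cl s ω) * q < (disp s (T s ω) : ℝ)) := fun hh => h2 ⟨h1.1, hh⟩
            refine (not_lt.1 this).trans ?_
            have h5 : (2 : ℝ) ^ (cl s ω) ≤ 2 ^ cm := pow_le_pow_right₀ (by norm_num) h1.1.le
            have : 0 ≤ q := Real.sqrt_nonneg _
            gcongr
          have h4' : (disp (flipV F s) (T (flipV F s) ω') : ℝ) ≤ C * 2 ^ cm * q := by
            have : ¬ (C * 2 ^ (cl (flipV F s) ω') * q <
              (disp (flipV F s) (T (flipV F s) ω') : ℝ)) := fun hh => h3 ⟨h1.2, hh⟩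
            refine (not_lt.1 this).trans ?_
            have h5 : (2 : ℝ) ^ (cl (flipV F s) ω') ≤ 2 ^ cm := pow_le_pow_right₀ (by norm_num) h1.2.le
            have : 0 ≤ q := Real.sqrt_nonneg _
            gcongr
          have h6 : F.card ≤ disp s (T s ω) + disp (flipV F s) (T (flipV F s) ω') +
              hammingDist (T s ω) (T (flipV F s) ω') := by
            have h7 : F.map (Fin.succEmb n) ⊆
                ((univ.filter (fun i : Fin n => T s ω i.succ ≠ s i)).map (Fin.succEmb n) ∪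
                (univ.filter (fun i : Fin n => T (flipV F s) ω' i.succ ≠ flipV F s i)).map
                  (Fin.succEmb n)) ∪
                univ.filter (fun i => T s ω i ≠ T (flipV F s) ω' i) := by
              intro i hi
              rw [mem_map] at hi
              obtain ⟨l, hl, rfl⟩ := hi
              simp only [mem_union, mem_map, mem_filter, mem_univ, true_and, Fin.coe_succEmb,
                Fin.succ_inj, exists_eq_right]
              by_contra hcon
              simp only [not_or, not_not] at hcon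
              obtain ⟨⟨c1, c2⟩, c3⟩ := hcon
              rw [c1, c2] at c3
              unfold flipV at c3
              simp [hl] at c3
            refine (card_map (Fin.succEmb n)).symm.le.trans ((card_le_card h7).trans ?_)
            refine (card_union_le _ _).trans ?_
            refine add_le_add ((card_union_le _ _).trans ?_) le_rfl
            rw [card_map, card_map]
            exact le_rfl
          have h8 : 2 * ρ < hammingDist (T s ω) (T (flipV F s) ω') := by
            have h9 : (F.card : ℝ) ≤ C * 2 ^ cm * q + C * 2 ^ cm * q +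
                (hammingDist (T s ω) (T (flipV F s) ω') : ℝ) := by
              have : (F.card : ℝ) ≤ (disp s (T s ω) : ℝ) + (disp (flipV F s) (T (flipV F s) ω') : ℝ) +
                (hammingDist (T s ω) (T (flipV F s) ω') : ℝ) := by exact_mod_cast h6
              linarith
            have h10 : ((n : ℝ) + 1) < 2 * F.card := by exact_mod_cast hF
            have h11 : (2 * ρ : ℝ) < (hammingDist (T s ω) (T (flipV F s) ω') : ℝ) := by linarith
            exact_mod_cast h11
          rw [K2_zero _ _ h8]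
          simp
    · rw [if_neg h1]
      have a1 : 0 ≤ (if ex s ω then K2 ρ (T s ω) (T (flipV F s) ω') else 0) := by
        split_ifs <;> linarith
      have a2 : 0 ≤ (if ex (flipV F s) ω' then K2 ρ (T s ω) (T (flipV F s) ω') else 0) := by
        split_ifs <;> linarith
      linarith
  have hexc : ((univ.filter (fun q : Cube n × Fin N => ex q.1 q.2)).card : ℝ) ≤
      C * 2 ^ n * N * (1 / 2) ^ (Nat.sqrt (n + 1)) := h.disp
  have hsum : ∑ s, ∑ ω, (if ex s ω then (1 : ℝ) else 0) ≤ C * 2 ^ n * N * (1 / 2) ^ (Nat.sqrt (n + 1)) := by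
    rw [← Fintype.sum_prod_type (f := fun q : Cube n × Fin N => if ex q.1 q.2 then (1 : ℝ) else 0),
      sum_boole]
    exact hexc
  calc ∑ F ∈ (univ : Finset (Finset (Fin n))).filter (fun F => n + 1 < 2 * F.card),
      ∑ s, Hf ρ cm T cl s (flipV F s)
      ≤ ∑ F ∈ (univ : Finset (Finset (Fin n))).filter (fun F => n + 1 < 2 * F.card),
        ∑ s, ∑ ω : Fin N, ∑ ω' : Fin N,
        ((if ex s ω then K2 ρ (T s ω) (T (flipV F s) ω') else 0) +
        (if ex (flipV F s) ω' then K2 ρ (T s ω) (T (flipV F s) ω') else 0)) := by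
        refine sum_le_sum fun F hF => sum_le_sum fun s _ => ?_
        unfold Hf
        rw [Fintype.sum_prod_type]
        rw [mem_filter] at hF
        exact sum_le_sum fun ω _ => sum_le_sum fun ω' _ => key F hF.2 s ω ω'
    _ ≤ ∑ F : Finset (Fin n), ∑ s, ∑ ω : Fin N, ∑ ω' : Fin N,
        ((if ex s ω then K2 ρ (T s ω) (T (flipV F s) ω') else 0) +
        (if ex (flipV F s) ω' then K2 ρ (T s ω) (T (flipV F s) ω') else 0)) := by
        refine sum_le_sum_of_subset_of_nonneg (filter_subset _ _) (fun F _ _ => ?_)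
        refine sum_nonneg fun s _ => sum_nonneg fun ω _ => sum_nonneg fun ω' _ => ?_
        have k0 := K2_nonneg (ρ := ρ) (T s ω) (T (flipV F s) ω')
        refine add_nonneg ?_ ?_ <;> split_ifs <;> linarith
    _ = ∑ s, ∑ t, ∑ ω : Fin N, ∑ ω' : Fin N,
        ((if ex s ω then K2 ρ (T s ω) (T t ω') else 0) +
        (if ex t ω' then K2 ρ (T s ω) (T t ω') else 0)) := by
        rw [sum_comm]
        refine sum_congr rfl fun s _ => ?_
        exact flip_sum s (fun t => ∑ ω : Fin N, ∑ ω' : Fin N,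
        ((if ex s ω then K2 ρ (T s ω) (T t ω') else 0) +
        (if ex t ω' then K2 ρ (T s ω) (T t ω') else 0)))
    _ = (∑ s, ∑ t, ∑ ω : Fin N, ∑ ω' : Fin N, (if ex s ω then K2 ρ (T s ω) (T t ω') else 0)) +
        (∑ s, ∑ t, ∑ ω : Fin N, ∑ ω' : Fin N, (if ex t ω' then K2 ρ (T s ω) (T t ω') else 0)) := by
        simp_rw [sum_add_distrib]
    _ = 2 * (∑ s, ∑ t, ∑ ω : Fin N, ∑ ω' : Fin N, (if ex s ω then K2 ρ (T s ω) (T t ω') else 0)) := by
        have : (∑ s, ∑ t, ∑ ω : Fin N, ∑ ω' : Fin N, (if ex t ω' then K2 ρ (T s ω) (T t ω') else 0))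
          = (∑ s, ∑ t, ∑ ω : Fin N, ∑ ω' : Fin N, (if ex s ω then K2 ρ (T s ω) (T t ω') else 0)) := by
          rw [sum_comm]
          refine sum_congr rfl fun s _ => sum_congr rfl fun t _ => ?_
          rw [sum_comm]
          refine sum_congr rfl fun ω _ => sum_congr rfl fun ω' _ => ?_
          rw [K2_symm]
        rw [this, two_mul]
    _ = 2 * (∑ s, ∑ ω : Fin N, (if ex s ω then (∑ t, ∑ ω' : Fin N, K2 ρ (T s ω) (T t ω')) else 0)) := by
        congr 1
        refine sum_congr rfl fun s _ => ?_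
        rw [sum_comm]
        refine sum_congr rfl fun ω _ => ?_
        split_ifs <;> simp
    _ ≤ 2 * (∑ s, ∑ ω : Fin N, (if ex s ω then (1 : ℝ) else 0) * (2 * N)) := by
        refine mul_le_mul_of_nonneg_left ?_ (by norm_num)
        refine sum_le_sum fun s _ => sum_le_sum fun ω _ => ?_
        split_ifs
        · rw [one_mul]; exact K2_sum_T ρ h _
        · simp
    _ = 4 * N * ∑ s, ∑ ω : Fin N, (if ex s ω then (1 : ℝ) else 0) := by
        simp_rw [← sum_mul]; ring
    _ ≤ 4 * N * (C * 2 ^ n * N * (1 / 2) ^ (Nat.sqrt (n + 1))) := by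
        refine mul_le_mul_of_nonneg_left hsum (by positivity)
    _ = _ := by ring

end

end Pool.Agent.K1H64.ST
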