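import Pool.Agent.K1H64.ST.Var3

/-! Sums over the codes. -/

set_option autoImplicit false

noncomputable section

namespace Pool.Agent.K1H64.ST

open Finset

theorem code_group {n : ℕ} (𝒞 : Finset (Finset (Fin n))) (p : ℕ → Prop) [DecidablePred p]
    (g : Finset (Fin n) → ℝ) (hg : ∀ F, 0 ≤ g F) (M : ℝ)
    (hM : ∀ k, k ≤ n → p k → ((𝒞.filter (fun E => E.card = k)).card : ℝ) ≤ M * (n.choose k : ℝ)) :
    ∑ E ∈ 𝒞.filter (fun E => p E.card), (∑ F ∈ powersetCard E.card univ, g F) / (n.choose E.card : ℝ) ≤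
      M * ∑ F ∈ (univ : Finset (Finset (Fin n))).filter (fun F => p F.card), g F := by
  simp_rw [sum_div]
  rw [sum_comm' (s := 𝒞.filter (fun E => p E.card)) (t := fun E => powersetCard E.card univ)
    (t' := (univ : Finset (Finset (Fin n))).filter (fun F => p F.card))
    (s' := fun F => 𝒞.filter (fun E => E.card = F.card))]
  · rw [mul_sum]
    refine sum_le_sum fun F hF => ?_
    rw [mem_filter] at hF
    have hFn : F.card ≤ n := by simpa using card_le_univ F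
    have h2 : (0 : ℝ) < (n.choose F.card : ℝ) := by exact_mod_cast Nat.choose_pos hFn
    have h3 : ∑ E ∈ 𝒞.filter (fun E => E.card = F.card), g F / (n.choose E.card : ℝ) =
        ((𝒞.filter (fun E => E.card = F.card)).card : ℝ) * (g F / (n.choose F.card : ℝ)) := by
      rw [← nsmul_eq_mul, ← sum_const]
      refine sum_congr rfl fun E hE => ?_
      rw [mem_filter] at hE
      rw [hE.2]
    rw [h3, mul_div_assoc', div_le_iff₀ h2]
    calc ((𝒞.filter (fun E => E.card = F.card)).card : ℝ) * g F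
        ≤ (M * (n.choose F.card : ℝ)) * g F := mul_le_mul_of_nonneg_right (hM _ hFn hF.2) (hg F)
      _ = M * g F * (n.choose F.card : ℝ) := by ring
  · intro E F
    simp only [mem_filter, mem_powersetCard, mem_univ, true_and, subset_univ]
    constructor
    · rintro ⟨⟨h1, h2⟩, h3⟩
      exact ⟨⟨h1, h3.symm⟩, h3 ▸ h2⟩
    · rintro ⟨⟨h1, h2⟩, h3⟩
      exact ⟨⟨h1, h2 ▸ h3⟩, h2.symm⟩

section

variable {C : ℝ} {n N : ℕ} {A : Finset (Cube (n + 1))} {T : Cube n → Fin N → Cube (n + 1)}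
  {cl : Cube n → Fin N → ℕ} {cm : ℕ} (ρ : ℕ)

theorem K2_le' (hT : S_TUP) (z w : Cube (n + 1)) :
    K2 ρ z w ≤ ((ρ + ρ).factorial : ℝ) / (Real.sqrt (n + 1)) ^ (ρ + ρ) := by
  refine (K2_le hT (Nat.succ_pos n) z w).trans ?_
  have h3 : Real.sqrt ((Nat.succ n : ℕ) : ℝ) = Real.sqrt (n + 1) := by push_cast; rfl
  rw [h3]
  have hq1 : 1 ≤ Real.sqrt (n + 1) := by
    rw [Real.one_le_sqrt]; have : (0:ℝ) ≤ n := by positivity
    linarith
  refine div_le_div_of_nonneg_left (by positivity) (by positivity) ?_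
  exact pow_le_pow_right₀ hq1 (by omega)

theorem Gdiag (hT : S_TUP) (c : ℕ) :
    ∑ s, Gf ρ T cl c s s ≤ ((ρ + ρ).factorial : ℝ) / (Real.sqrt (n + 1)) ^ (ρ + ρ) * (2 ^ n * N) := by
  have h1 : ∀ s, Gf ρ T cl c s s ≤ N * (((ρ + ρ).factorial : ℝ) / (Real.sqrt (n + 1)) ^ (ρ + ρ)) := by
    intro s
    unfold Gf
    refine (sum_le_sum (g := fun _ : Fin N => ((ρ + ρ).factorial : ℝ) / (Real.sqrt (n + 1)) ^ (ρ + ρ))
      fun ω _ => ?_).trans ?_
    · split_ifs
      · exact K2_le' ρ hT _ _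
      · positivity
    · rw [sum_const, card_univ, Fintype.card_fin, nsmul_eq_mul]
  refine (sum_le_sum fun s _ => h1 s).trans ?_
  rw [sum_const, card_univ, nsmul_eq_mul]
  simp only [Fintype.card_pi, Fintype.card_bool, prod_const, card_univ, Fintype.card_fin]
  push_cast
  exact le_of_eq (by ring)

theorem Hdiag (hT : S_TUP) :
    ∑ s, Hf ρ cm T cl s s ≤
      ((ρ + ρ).factorial : ℝ) / (Real.sqrt (n + 1)) ^ (ρ + ρ) * (2 ^ n * N ^ 2) := by
  have h1 : ∀ s, Hf ρ cm T cl s s ≤ N ^ 2 * (((ρ + ρ).factorial : ℝ) / (Real.sqrt (n + 1)) ^ (ρ + ρ)) := by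
    intro s
    unfold Hf
    refine (sum_le_sum (g := fun _ : Fin N × Fin N =>
      ((ρ + ρ).factorial : ℝ) / (Real.sqrt (n + 1)) ^ (ρ + ρ)) fun ω _ => ?_).trans ?_
    · split_ifs
      · exact K2_le' ρ hT _ _
      · positivity
    · rw [sum_const, card_univ, Fintype.card_prod, Fintype.card_fin, nsmul_eq_mul]
      push_cast
      exact le_of_eq (by ring)
  refine (sum_le_sum fun s _ => h1 s).trans ?_
  rw [sum_const, card_univ, nsmul_eq_mul]
  simp only [Fintype.card_pi, Fintype.card_bool, prod_const, card_univ, Fintype.card_fin]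
  push_cast
  exact le_of_eq (by ring)

theorem Gcode (hT : S_TUP) (hC : 1 ≤ C) (h : Sys C n A N T cl cm) {b m : ℕ} {K : ℕ → ℝ}
    {L : Cube n → Cube n} {B : ℕ → Finset (Fin n)} (hcs : CodeSys b K m n L B)
    (hn1 : 1 ≤ n) (hnm : n + 1 = 4 ^ m) (hb : 24 * C ≤ 2 ^ b) (c : ℕ) (hc : c < cm) (hcb : c + b ≤ m) :
    ∑ E ∈ code L (B c), (∑ F ∈ powersetCard E.card univ, ∑ s, Gf ρ T cl c s (flipV F s)) /
      (n.choose E.card : ℝ) ≤
    ((ρ + ρ).factorial : ℝ) / (Real.sqrt (n + 1)) ^ (ρ + ρ) * 2 ^ (4 ^ (c + b)) * (2 ^ n * N) := by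
  have hq : Real.sqrt (n + 1) = 2 ^ m := by
    have : ((n : ℝ) + 1) = (2 ^ m) ^ 2 := by
      have : ((n + 1 : ℕ) : ℝ) = ((4 ^ m : ℕ) : ℝ) := by rw [hnm]
      push_cast at this
      rw [this, ← pow_mul, mul_comm, pow_mul]; norm_num
    rw [this, Real.sqrt_sq (by positivity)]
  have hn2 : ((n : ℝ) + 1) = 2 ^ m * 2 ^ m := by
    rw [← hq, Real.mul_self_sqrt (by positivity)]
  set κ := ((ρ + ρ).factorial : ℝ) / (Real.sqrt (n + 1)) ^ (ρ + ρ) with hκ
  have hκ0 : 0 ≤ κ := by positivity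
  have h1 : ∀ E ∈ code L (B c), (∑ F ∈ powersetCard E.card univ, ∑ s, Gf ρ T cl c s (flipV F s)) /
      (n.choose E.card : ℝ) ≤ κ * (2 ^ n * N) * (6 * (1 + C * 2 ^ c) / 2 ^ m) ^ E.card := by
    intro E _
    have hE : E.card ≤ n := by simpa using card_le_univ E
    have h2 := Gsum ρ hT hC h c hc E.card
    have h3 := inv_choose_le n E.card hn1 hE (Real.sqrt (n + 1) + C * 2 ^ c * Real.sqrt (n + 1))
      (by positivity)
    have h4 : 6 * (Real.sqrt (n + 1) + C * 2 ^ c * Real.sqrt (n + 1)) / ((n : ℝ) + 1) =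
        6 * (1 + C * 2 ^ c) / 2 ^ m := by
      rw [hq, hn2]
      field_simp
    rw [h4] at h3
    calc (∑ F ∈ powersetCard E.card univ, ∑ s, Gf ρ T cl c s (flipV F s)) / (n.choose E.card : ℝ)
        ≤ (κ * ((Real.sqrt (n + 1) + C * 2 ^ c * Real.sqrt (n + 1)) ^ E.card /
            (E.card.factorial : ℝ) * (2 ^ n * N))) / (n.choose E.card : ℝ) := by
          gcongr
      _ = κ * (2 ^ n * N) * ((Real.sqrt (n + 1) + C * 2 ^ c * Real.sqrt (n + 1)) ^ E.card /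
            (E.card.factorial : ℝ) / (n.choose E.card : ℝ)) := by ring
      _ ≤ _ := mul_le_mul_of_nonneg_left h3 (by positivity)
  refine (sum_le_sum h1).trans ?_
  rw [← mul_sum]
  have h5 := hcs.enum c hcb (6 * (1 + C * 2 ^ c) / 2 ^ m) (by positivity) (by
    have h6 : (2 : ℝ) ^ m * (6 * (1 + C * 2 ^ c) / 2 ^ m) = 6 * (1 + C * 2 ^ c) := by
      field_simp
    rw [h6]
    have h7 : (1 : ℝ) ≤ 2 ^ c := one_le_pow₀ (by norm_num)
    have h8 : (1 : ℝ) ≤ C * 2 ^ c := by nlinarith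
    nlinarith)
  calc κ * (2 ^ n * N) * ∑ E ∈ code L (B c), (6 * (1 + C * 2 ^ c) / 2 ^ m) ^ E.card
      ≤ κ * (2 ^ n * N) * 2 ^ (4 ^ (c + b)) := mul_le_mul_of_nonneg_left h5 (by positivity)
    _ = _ := by ring

theorem Hcode (hT : S_TUP) (hC : 1 ≤ C) (h : Sys C n A N T cl cm) {b m : ℕ} {K : ℕ → ℝ}
    {L : Cube n → Cube n} {B : ℕ → Finset (Fin n)} (hcs : CodeSys b K m n L B)
    (hn1 : 1 ≤ n) (hnm : n + 1 = 4 ^ m) (hbm : b ≤ m)
    (hbig : 2 * (C * 2 ^ cm * Real.sqrt (n + 1)) + 2 * ρ < ((n : ℝ) + 1) / 2) :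
    ∑ E ∈ code L (B 0), (∑ F ∈ powersetCard E.card univ, ∑ s, Hf ρ cm T cl s (flipV F s)) /
      (n.choose E.card : ℝ) ≤
    (((ρ + ρ).factorial : ℝ) / (Real.sqrt (n + 1)) ^ (ρ + ρ) * (12 * (1 + C * 2 ^ cm)) ^ 30 *
      2 ^ (4 ^ b) + 2 * (|K 30| / (Real.sqrt (n + 1)) ^ 30) +
      4 * C * (1 / 2) ^ (Nat.sqrt (n + 1))) * (2 ^ n * N ^ 2) := by
  classical
  have hq : Real.sqrt (n + 1) = 2 ^ m := by
    have : ((n : ℝ) + 1) = (2 ^ m) ^ 2 := by
      have : ((n + 1 : ℕ) : ℝ) = ((4 ^ m : ℕ) : ℝ) := by rw [hnm]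
      push_cast at this
      rw [this, ← pow_mul, mul_comm, pow_mul]; norm_num
    rw [this, Real.sqrt_sq (by positivity)]
  have hn2 : ((n : ℝ) + 1) = 2 ^ m * 2 ^ m := by
    rw [← hq, Real.mul_self_sqrt (by positivity)]
  set κ := ((ρ + ρ).factorial : ℝ) / (Real.sqrt (n + 1)) ^ (ρ + ρ) with hκ
  have hκ0 : 0 ≤ κ := by positivity
  set g : Finset (Fin n) → ℝ := fun F => ∑ s, Hf ρ cm T cl s (flipV F s) with hg
  have hg0 : ∀ F, 0 ≤ g F := fun F => sum_nonneg fun s _ => Hf_nonneg _ _ _ _ _ _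
  set φ : Finset (Fin n) → ℝ := fun E => (∑ F ∈ powersetCard E.card univ, g F) / (n.choose E.card : ℝ)
    with hφ
  have hφ0 : ∀ E, 0 ≤ φ E := fun E => div_nonneg (sum_nonneg fun F _ => hg0 F) (by positivity)
  set 𝒞 := code L (B 0) with h𝒞
  -- split
  have hsplit : ∑ E ∈ 𝒞, φ E ≤ ∑ E ∈ 𝒞.filter (fun E => E.card ≤ 30), φ E +
      ∑ E ∈ 𝒞.filter (fun E => (fun k => 30 ≤ k ∧ 2 * k ≤ n + 1) E.card), φ E +
      ∑ E ∈ 𝒞.filter (fun E => (fun k => n + 1 < 2 * k) E.card), φ E := by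
    rw [sum_filter, sum_filter, sum_filter, ← sum_add_distrib, ← sum_add_distrib]
    refine sum_le_sum fun E _ => ?_
    have := hφ0 E
    by_cases h1 : E.card ≤ 30
    · rw [if_pos h1]
      split_ifs <;> linarith
    · rw [if_neg h1]
      by_cases h2 : n + 1 < 2 * E.card
      · rw [if_pos h2]
        split_ifs <;> linarith
      · rw [if_neg h2, if_pos ⟨by omega, by omega⟩]
        linarith
  refine hsplit.trans ?_
  -- (i)
  have p1 : ∑ E ∈ 𝒞.filter (fun E => E.card ≤ 30), φ E ≤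
      κ * (12 * (1 + C * 2 ^ cm)) ^ 30 * 2 ^ (4 ^ b) * (2 ^ n * N ^ 2) := by
    have h1 : ∀ E ∈ 𝒞.filter (fun E => E.card ≤ 30), φ E ≤
        κ * (2 ^ n * N ^ 2) * ((12 * (1 + C * 2 ^ cm)) ^ 30 * (2 ^ b / 2 / 2 ^ m) ^ E.card) := by
      intro E hE
      rw [mem_filter] at hE
      have hEn : E.card ≤ n := by simpa using card_le_univ E
      have h2 := Hsum ρ hT hC h E.card
      have h3 := inv_choose_le n E.card hn1 hEn (Real.sqrt (n + 1) + C * 2 ^ cm * Real.sqrt (n + 1))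
        (by positivity)
      have h4 : 6 * (Real.sqrt (n + 1) + C * 2 ^ cm * Real.sqrt (n + 1)) / ((n : ℝ) + 1) =
          (12 * (1 + C * 2 ^ cm) / 2 ^ b) * (2 ^ b / 2 / 2 ^ m) := by
        rw [hq, hn2]
        field_simp
        ring
      rw [h4, mul_pow] at h3
      have h5 : (12 * (1 + C * 2 ^ cm) / 2 ^ b) ^ E.card ≤ (12 * (1 + C * 2 ^ cm)) ^ 30 := by
        have h6 : (1 : ℝ) ≤ 12 * (1 + C * 2 ^ cm) := by
          have : 0 ≤ C * 2 ^ cm := by positivity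
          linarith
        calc (12 * (1 + C * 2 ^ cm) / 2 ^ b) ^ E.card ≤ (12 * (1 + C * 2 ^ cm)) ^ E.card := by
              gcongr
              refine div_le_self (by positivity) ?_
              exact one_le_pow₀ (by norm_num)
          _ ≤ _ := pow_le_pow_right₀ h6 hE.2
      calc φ E ≤ (κ * ((Real.sqrt (n + 1) + C * 2 ^ cm * Real.sqrt (n + 1)) ^ E.card /
              (E.card.factorial : ℝ) * (2 ^ n * N ^ 2))) / (n.choose E.card : ℝ) := by
            exact div_le_div_of_nonneg_right h2 (by positivity)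
        _ = κ * (2 ^ n * N ^ 2) * ((Real.sqrt (n + 1) + C * 2 ^ cm * Real.sqrt (n + 1)) ^ E.card /
              (E.card.factorial : ℝ) / (n.choose E.card : ℝ)) := by ring
        _ ≤ κ * (2 ^ n * N ^ 2) * ((12 * (1 + C * 2 ^ cm) / 2 ^ b) ^ E.card *
              (2 ^ b / 2 / 2 ^ m) ^ E.card) := mul_le_mul_of_nonneg_left h3 (by positivity)
        _ ≤ _ := by gcongr
    refine (sum_le_sum h1).trans ?_
    rw [← mul_sum, ← mul_sum]
    have h7 : ∑ E ∈ 𝒞.filter (fun E => E.card ≤ 30), ((2 : ℝ) ^ b / 2 / 2 ^ m) ^ E.card ≤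
        2 ^ (4 ^ b) := by
      refine (sum_le_sum_of_subset_of_nonneg (filter_subset _ _)
        (fun E _ _ => by positivity)).trans ?_
      have h8 := hcs.enum 0 (by omega) (2 ^ b / 2 / 2 ^ m) (by positivity) (by
        have : (2 : ℝ) ^ m * (2 ^ b / 2 / 2 ^ m) = 2 ^ b / 2 := by field_simp
        rw [this]; simp)
      rwa [zero_add] at h8
    calc κ * (2 ^ n * N ^ 2) * ((12 * (1 + C * 2 ^ cm)) ^ 30 *
          ∑ E ∈ 𝒞.filter (fun E => E.card ≤ 30), ((2 : ℝ) ^ b / 2 / 2 ^ m) ^ E.card)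
        ≤ κ * (2 ^ n * N ^ 2) * ((12 * (1 + C * 2 ^ cm)) ^ 30 * 2 ^ (4 ^ b)) := by gcongr
      _ = _ := by ring
  have p2 : ∑ E ∈ 𝒞.filter (fun E => (fun k => 30 ≤ k ∧ 2 * k ≤ n + 1) E.card), φ E ≤
      2 * (|K 30| / (Real.sqrt (n + 1)) ^ 30) * (2 ^ n * N ^ 2) := by
    refine (code_group 𝒞 (fun k => 30 ≤ k ∧ 2 * k ≤ n + 1) g hg0
      (|K 30| / (Real.sqrt (n + 1)) ^ 30) ?_).trans ?_
    · intro k _ hk
      refine (hcs.sparse 30 k hk.1 hk.2).trans ?_
      have h1 : K 30 ≤ |K 30| := le_abs_self _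
      calc K 30 * (n.choose k : ℝ) / (Real.sqrt (n + 1)) ^ 30
          ≤ |K 30| * (n.choose k : ℝ) / (Real.sqrt (n + 1)) ^ 30 := by gcongr
        _ = _ := by ring
    · calc |K 30| / (Real.sqrt (n + 1)) ^ 30 *
            ∑ F ∈ (univ : Finset (Finset (Fin n))).filter (fun F => 30 ≤ F.card ∧ 2 * F.card ≤ n + 1), g F
          ≤ |K 30| / (Real.sqrt (n + 1)) ^ 30 * ∑ F : Finset (Fin n), g F := by
            refine mul_le_mul_of_nonneg_left ?_ (by positivity)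
            exact sum_le_sum_of_subset_of_nonneg (filter_subset _ _) (fun F _ _ => hg0 F)
        _ ≤ |K 30| / (Real.sqrt (n + 1)) ^ 30 * (2 * (2 ^ n * N ^ 2)) := by
            refine mul_le_mul_of_nonneg_left ?_ (by positivity)
            exact Hcrude ρ h
        _ = _ := by ring
  have p3 : ∑ E ∈ 𝒞.filter (fun E => (fun k => n + 1 < 2 * k) E.card), φ E ≤
      4 * C * (1 / 2) ^ (Nat.sqrt (n + 1)) * (2 ^ n * N ^ 2) := by
    refine (code_group 𝒞 (fun k => n + 1 < 2 * k) g hg0 1 ?_).trans ?_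
    · intro k _ _
      rw [one_mul]
      have h1 : 𝒞.filter (fun E => E.card = k) ⊆ powersetCard k (univ : Finset (Fin n)) := by
        intro E hE
        rw [mem_filter] at hE
        rw [mem_powersetCard]
        exact ⟨subset_univ _, hE.2⟩
      have h2 := card_le_card h1
      rw [card_powersetCard, card_univ, Fintype.card_fin] at h2
      exact_mod_cast h2
    · rw [one_mul]
      exact Hbig ρ hC h hbig
  calc _ ≤ κ * (12 * (1 + C * 2 ^ cm)) ^ 30 * 2 ^ (4 ^ b) * (2 ^ n * N ^ 2) +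
        2 * (|K 30| / (Real.sqrt (n + 1)) ^ 30) * (2 ^ n * N ^ 2) +
        4 * C * (1 / 2) ^ (Nat.sqrt (n + 1)) * (2 ^ n * N ^ 2) := add_le_add (add_le_add p1 p2) p3
    _ = _ := by ring

end

end Pool.Agent.K1H64.ST
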