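import Pool.Agent.K1H64.ST.Var4

/-! The second moment: conclusion. -/

set_option autoImplicit false

noncomputable section

namespace Pool.Agent.K1H64.ST

open Finset

theorem ev_log (D : ℝ) : ∀ᶠ k : ℕ in Filter.atTop, D * (Real.log k) ^ 30 ≤ k := by
  have h1 := (isLittleO_log_rpow_atTop (r := 1/30) (by norm_num))
  have h0 : (0 : ℝ) < (|D| + 1) ^ (-(1:ℝ)/30) := Real.rpow_pos_of_pos (by positivity) _
  have h2 := (h1.def h0)
  have h3 := (tendsto_natCast_atTop_atTop (R := ℝ)).eventually h2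
  filter_upwards [h3, Filter.eventually_ge_atTop 1] with k hk hk1
  have hk1' : (1 : ℝ) ≤ k := by exact_mod_cast hk1
  have hl : 0 ≤ Real.log k := Real.log_nonneg hk1'
  rw [Real.norm_of_nonneg hl, Real.norm_of_nonneg (by positivity)] at hk
  have h4 : (Real.log k) ^ 30 ≤ ((|D| + 1) ^ (-(1:ℝ)/30) * (k : ℝ) ^ ((1:ℝ)/30)) ^ 30 :=
    pow_le_pow_left₀ hl hk 30
  rw [mul_pow, ← Real.rpow_natCast ((|D| + 1) ^ (-(1:ℝ)/30)) 30,
    ← Real.rpow_natCast ((k : ℝ) ^ ((1:ℝ)/30)) 30, ← Real.rpow_mul (by positivity),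
    ← Real.rpow_mul (by positivity)] at h4
  norm_num at h4
  rw [Real.rpow_neg_one] at h4
  have hD : D ≤ |D| + 1 := by have := le_abs_self D; linarith
  calc D * (Real.log k) ^ 30 ≤ (|D| + 1) * (Real.log k) ^ 30 := by gcongr
    _ ≤ (|D| + 1) * ((|D| + 1)⁻¹ * k) := by gcongr
    _ = k := by field_simp

theorem ev_exp (D : ℝ) : ∀ᶠ k : ℕ in Filter.atTop, D * ((k : ℝ) ^ 28 * (1 / 2) ^ k) ≤ 1 := by
  have h1 := tendsto_pow_const_mul_const_pow_of_abs_lt_one 28 (r := (1/2 : ℝ))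
    (by rw [abs_of_pos] <;> norm_num)
  have h2 := h1.const_mul D
  rw [mul_zero] at h2
  exact (h2.eventually_lt_const (by norm_num : (0:ℝ) < 1)).mono fun k hk => hk.le

theorem sum_perm_code {n : ℕ} (𝒞 : Finset (Finset (Fin n))) (g : Finset (Fin n) → ℝ) (a : ℝ) :
    ∑ π : Equiv.Perm (Fin n), (a + ∑ E ∈ 𝒞, g (pb π E)) =
      (Fintype.card (Equiv.Perm (Fin n)) : ℝ) *
        (a + ∑ E ∈ 𝒞, (∑ F ∈ powersetCard E.card univ, g F) / (n.choose E.card : ℝ)) := by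
  rw [sum_add_distrib, code_avg, sum_const, card_univ, nsmul_eq_mul, mul_add]

theorem sum_perm_code2 {n : ℕ} (r N : ℝ) (cm : ℕ) (w : ℝ) (𝒞 : ℕ → Finset (Finset (Fin n)))
    (g : ℕ → Finset (Fin n) → ℝ) (a : ℕ → ℝ) (h : Finset (Fin n) → ℝ) (a' : ℝ) :
    ∑ π : Equiv.Perm (Fin n), r * ((∑ c ∈ range cm, (a c + ∑ E ∈ 𝒞 c, g c (pb π E))) / N +
      w * (a' + ∑ E ∈ 𝒞 0, h (pb π E)) / N ^ 2) =
    ((Fintype.card (Equiv.Perm (Fin n)) : ℝ) * r) *
      ((∑ c ∈ range cm, (a c + ∑ E ∈ 𝒞 c, (∑ F ∈ powersetCard E.card univ, g c F) /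
        (n.choose E.card : ℝ))) / N +
      w * (a' + ∑ E ∈ 𝒞 0, (∑ F ∈ powersetCard E.card univ, h F) / (n.choose E.card : ℝ)) / N ^ 2) := by
  rw [← mul_sum, sum_add_distrib]
  have h1 : ∑ π : Equiv.Perm (Fin n), (∑ c ∈ range cm, (a c + ∑ E ∈ 𝒞 c, g c (pb π E))) / N =
      (Fintype.card (Equiv.Perm (Fin n)) : ℝ) *
      (∑ c ∈ range cm, (a c + ∑ E ∈ 𝒞 c, (∑ F ∈ powersetCard E.card univ, g c F) /
        (n.choose E.card : ℝ))) / N := by
    rw [← sum_div, sum_comm]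
    simp_rw [sum_perm_code]
    rw [← mul_sum]
  have h2 : ∑ π : Equiv.Perm (Fin n), w * (a' + ∑ E ∈ 𝒞 0, h (pb π E)) / N ^ 2 =
      w * ((Fintype.card (Equiv.Perm (Fin n)) : ℝ) *
      (a' + ∑ E ∈ 𝒞 0, (∑ F ∈ powersetCard E.card univ, h F) / (n.choose E.card : ℝ))) / N ^ 2 := by
    rw [← sum_div, ← mul_sum, sum_perm_code]
  rw [h1, h2]
  ring

/-- Numerics. -/
theorem num_final (k κ0 κ Y Z : ℝ) (a0 cm : ℕ) (K C : ℝ) (w : ℝ) (hk8 : 8 ≤ k) (hκ0pos : 0 < κ0)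
    (hκpos : 0 ≤ κ) (hκ : κ ≤ κ0 / (k ^ a0 * k ^ 40)) (hY0 : 0 ≤ Y) (hY : Y ≤ k) (hZ1 : 1 ≤ Z)
    (hZ : 64 * κ0 * Z ≤ k) (hK0 : 0 ≤ K) (hK : 64 * K ≤ k) (hcm : (cm : ℝ) ≤ k)
    (hC : 0 ≤ C) (X : ℝ) (hX0 : 0 ≤ X) (hX : X ≤ k ^ a0) (hw : 0 ≤ w)
    (hwC : 64 * C * (k ^ 28 * w) ≤ 1) :
    cm * (κ * (1 + X)) ≤ (1 / 2) / k ^ 12 ∧
    2 * k ^ 16 * (κ + (κ * Y * Z + 2 * (K / k ^ 30) + 4 * C * w)) ≤ (1 / 2) / k ^ 12 := by
  have hkpos : 0 < k := by linarith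
  have hk1 : 1 ≤ k := by linarith
  have hk_a0 : (1 : ℝ) ≤ k ^ a0 := one_le_pow₀ hk1
  have hκle' : κ ≤ κ0 / k ^ 40 := by
    refine hκ.trans (div_le_div_of_nonneg_left hκ0pos.le (by positivity) ?_)
    nlinarith [pow_pos hkpos 40]
  have hkκ' : 64 * κ0 ≤ k := by nlinarith
  have kp : ∀ i j : ℕ, i ≤ j → k ^ i ≤ k ^ j := fun i j h => pow_le_pow_right₀ hk1 h
  have u1 : cm * (κ * (1 + X)) ≤ (1 / 2) / k ^ 12 := by
    calc cm * (κ * (1 + X))
        ≤ k * (κ0 / (k ^ a0 * k ^ 40) * (2 * k ^ a0)) := by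
          have : (1 : ℝ) + X ≤ 2 * k ^ a0 := by linarith
          gcongr
      _ = 2 * κ0 * k / k ^ 40 := by field_simp
      _ ≤ (1 / 2) / k ^ 12 := by
          rw [div_le_div_iff₀ (by positivity) (by positivity)]
          calc 2 * κ0 * k * k ^ 12 = (2 * κ0) * k ^ 13 := by ring
            _ ≤ (1 / 2 * k) * k ^ 13 := mul_le_mul_of_nonneg_right (by linarith) (by positivity)
            _ = 1 / 2 * k ^ 14 := by ring
            _ ≤ 1 / 2 * k ^ 40 := by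
                have := kp 14 40 (by norm_num)
                linarith
  have v1 : 2 * k ^ 16 * κ ≤ (1 / 8) / k ^ 12 := by
    calc 2 * k ^ 16 * κ ≤ 2 * k ^ 16 * (κ0 / k ^ 40) := by gcongr
      _ = 2 * κ0 * k ^ 16 / k ^ 40 := by ring
      _ ≤ _ := by
          rw [div_le_div_iff₀ (by positivity) (by positivity)]
          calc 2 * κ0 * k ^ 16 * k ^ 12 = (2 * κ0) * k ^ 28 := by ring
            _ ≤ (1 / 8 * k) * k ^ 28 := mul_le_mul_of_nonneg_right (by linarith) (by positivity)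
            _ = 1 / 8 * k ^ 29 := by ring
            _ ≤ 1 / 8 * k ^ 40 := by
                have := kp 29 40 (by norm_num)
                linarith
  have v2 : 2 * k ^ 16 * (κ * Y * Z) ≤ (1 / 8) / k ^ 12 := by
    calc 2 * k ^ 16 * (κ * Y * Z)
        ≤ 2 * k ^ 16 * ((κ0 / k ^ 40) * k * Z) := by gcongr
      _ = 2 * κ0 * Z * k ^ 17 / k ^ 40 := by ring
      _ ≤ _ := by
          rw [div_le_div_iff₀ (by positivity) (by positivity)]
          calc 2 * κ0 * Z * k ^ 17 * k ^ 12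
              = (2 * κ0 * Z) * k ^ 29 := by ring
            _ ≤ (1 / 8 * k) * k ^ 29 := mul_le_mul_of_nonneg_right (by linarith) (by positivity)
            _ = 1 / 8 * k ^ 30 := by ring
            _ ≤ 1 / 8 * k ^ 40 := by
                have := kp 30 40 (by norm_num)
                linarith
  have v3 : 2 * k ^ 16 * (2 * (K / k ^ 30)) ≤ (1 / 8) / k ^ 12 := by
    have : 2 * k ^ 16 * (2 * (K / k ^ 30)) = 4 * K * k ^ 16 / k ^ 30 := by
      ring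
    rw [this, div_le_div_iff₀ (by positivity) (by positivity)]
    calc 4 * K * k ^ 16 * k ^ 12 = (4 * K) * k ^ 28 := by ring
      _ ≤ (1 / 8 * k) * k ^ 28 := mul_le_mul_of_nonneg_right (by linarith) (by positivity)
      _ = 1 / 8 * k ^ 29 := by ring
      _ ≤ 1 / 8 * k ^ 30 := by
          have := kp 29 30 (by norm_num)
          linarith
  have v4 : 2 * k ^ 16 * (4 * C * w) ≤ (1 / 8) / k ^ 12 := by
    rw [le_div_iff₀ (by positivity)]
    calc 2 * k ^ 16 * (4 * C * w) * k ^ 12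
        = (1 / 8) * (64 * C * (k ^ 28 * w)) := by ring
      _ ≤ (1 / 8) * 1 := by gcongr
      _ = _ := by norm_num
  refine ⟨u1, ?_⟩
  have : (1 / 2 : ℝ) / k ^ 12 = (1 / 8) / k ^ 12 + ((1 / 8) / k ^ 12 +
      (1 / 8) / k ^ 12 + (1 / 8) / k ^ 12) := by ring
  rw [this, mul_add, mul_add, mul_add]
  exact add_le_add v1 (add_le_add (add_le_add v2 v3) v4)

end Pool.Agent.K1H64.ST
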